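import Pool.Agent.J6H31.AW.NE

/-!
# The complement of a language in `NE` is hard on average for interactive proofs with advice
-/

set_option autoImplicit false

namespace Pool.Agent.J6H31.AW

open Pool.Agent.NPC Pool.Agent.H620R2.Gauge Pool.Agent.H622R2 Pool.Agent.H591R3.PHG
open Pool.Agent.J6H7.RO (MO randomOracle outV outV_eq prob)
open MeasureTheory Filter
open Pool.Agent.TH678.GC (join)
open Pool.Agent.TH678.RS (bt)
open Pool.Agent.Y626.WX (Cp cod agree_emb loc_emb exists_cp)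
open Pool.Agent.J6H49.PHC (far join_agree)
open Pool.Agent.J6H49.BI (LateP fair)
open Pool.Agent.J6H49.EE (padE LinExp InExpTime slow slow_mono slow_tendsto time_espace)
open Pool.Agent.J6H31.AV

/-- some advice is too good for the length `n` -/
def Gv (μ : ℕ → ℕ) (E : ℕ → List Bool → Set Oracle) (C n : ℕ) : Set Oracle :=
  {A | ∃ w : List Bool, w.length ≤ n ∧ C * n ≤ μ n ∧ A ∈ E n w}

theorem gv_bound {μ : ℕ → ℕ} {E : ℕ → List Bool → Set Oracle} {C : ℕ}
    (hE : ∀ n ≥ C, ∀ w : List Bool, w.length ≤ n → C * n ≤ μ n →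
      prob (fun _ => fair) (E n w) ≤ 5 / ((n + 1) ^ 4 * 2 ^ w.length)) : ∀ n ≥ C,
      prob (fun _ => fair) (Gv μ E C n) ≤ 5 * (1 / ((n + 1 : ℕ) : ℝ) ^ 2) := by
  intro n hn
  have h1 := hE n hn
  have hsub : Gv μ E C n ⊆ ⋃ a ∈ Finset.range (n + 1), ⋃ j ∈ Finset.range (2 ^ a),
      {A | a ≤ n ∧ C * n ≤ μ n ∧ A ∈ E n (bitsOf a j)} := by
    rintro A ⟨w, hw, hk, hA⟩
    simp only [Set.mem_iUnion, Finset.mem_range]
    obtain ⟨j, hj, hjw⟩ := exists_bitsOf w
    refine ⟨w.length, by omega, j, hj, hw, hk, ?_⟩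
    rw [hjw]
    exact hA
  have h3 : ∀ a ∈ Finset.range (n + 1), ∀ j ∈ Finset.range (2 ^ a), prob (fun _ => fair)
      {A | a ≤ n ∧ C * n ≤ μ n ∧ A ∈ E n (bitsOf a j)} ≤
        5 / (((n : ℝ) + 1) ^ 4 * 2 ^ a) := by
    intro a _ j _
    by_cases h : a ≤ n ∧ C * n ≤ μ n
    · have h4 := h1 (bitsOf a j) (by rw [length_bitsOf]; exact h.1) h.2
      rw [length_bitsOf] at h4
      refine le_trans ?_ h4
      exact measureReal_mono (fun A hA => hA.2.2) (measure_ne_top _ _)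
    · have : {A : Oracle | a ≤ n ∧ C * n ≤ μ n ∧ A ∈ E n (bitsOf a j)} = ∅ := by
        ext A
        simp only [Set.mem_ofPred_eq, Set.mem_empty_iff_false, iff_false]
        exact fun h' => h ⟨h'.1, h'.2.1⟩
      rw [this]
      unfold prob
      rw [measureReal_empty]
      positivity
  have h4 : prob (fun _ => fair) (Gv μ E C n) ≤ ∑ a ∈ Finset.range (n + 1),
      ∑ j ∈ Finset.range (2 ^ a), 5 / (((n : ℝ) + 1) ^ 4 * 2 ^ a) := by
    refine (measureReal_mono hsub (measure_ne_top _ _)).trans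
      ((measureReal_biUnion_finset_le _ _).trans (Finset.sum_le_sum fun a ha => ?_))
    refine (measureReal_biUnion_finset_le _ _).trans (Finset.sum_le_sum fun j hj => ?_)
    exact h3 a ha j hj
  refine h4.trans ?_
  have h5 : ∀ a ∈ Finset.range (n + 1), ∑ j ∈ Finset.range (2 ^ a),
      5 / (((n : ℝ) + 1) ^ 4 * 2 ^ a) = 5 / ((n : ℝ) + 1) ^ 4 := by
    intro a _
    rw [Finset.sum_const, Finset.card_range, nsmul_eq_mul]
    push_cast
    field_simp
  rw [Finset.sum_congr rfl h5, Finset.sum_const, Finset.card_range, nsmul_eq_mul]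
  push_cast
  have h6 : (1 : ℝ) ≤ (n : ℝ) + 1 := by
    have : (0 : ℝ) ≤ n := Nat.cast_nonneg n
    linarith
  have h7 : ((n : ℝ) + 1) * (5 / ((n : ℝ) + 1) ^ 4) = 5 * (1 / ((n : ℝ) + 1) ^ 3) := by
    field_simp
  rw [h7]
  refine mul_le_mul_of_nonneg_left ?_ (by norm_num)
  exact one_div_le_one_div_of_le (by positivity) (pow_le_pow_right₀ h6 (by norm_num))

/-- the lemma of Borel and Cantelli -/
theorem ae_gv {μ : ℕ → ℕ} {E : ℕ → List Bool → Set Oracle}
    (hE : ∃ C : ℕ, ∀ n ≥ C, ∀ w : List Bool, w.length ≤ n → C * n ≤ μ n →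
      prob (fun _ => fair) (E n w) ≤ 5 / ((n + 1) ^ 4 * 2 ^ w.length)) :
    ∀ᵐ A ∂(randomOracle fun _ => fair), ∃ C : ℕ, ∀ n ≥ C, A ∉ Gv μ E C n := by
  obtain ⟨n₀, hn₀'⟩ := hE
  have hn₀ := gv_bound hn₀'
  have h1 : ∀ᵐ A ∂(randomOracle fun _ => fair), ∀ᶠ i : ℕ in atTop,
      A ∉ Gv μ E n₀ (i + n₀) := by
    refine ae_eventually_notMem ?_
    have hsum : Summable (fun i : ℕ => 5 * (1 / ((i + n₀ + 1 : ℕ) : ℝ) ^ 2)) := by
      have h2 : Summable (fun N : ℕ => 1 / (N : ℝ) ^ 2) :=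
        Real.summable_one_div_nat_pow.2 (by norm_num)
      have h3 := ((summable_nat_add_iff (n₀ + 1)).2 h2).mul_left 5
      refine h3.congr fun i => ?_
      rw [add_assoc]
    have h4 : ∀ i, (randomOracle fun _ => fair) (Gv μ E n₀ (i + n₀)) ≤
        ENNReal.ofReal (5 * (1 / ((i + n₀ + 1 : ℕ) : ℝ) ^ 2)) := by
      intro i
      rw [← ofReal_measureReal (measure_ne_top _ _)]
      exact ENNReal.ofReal_le_ofReal (hn₀ (i + n₀) (by omega))
    exact ne_top_of_le_ne_top hsum.tsum_ofReal_ne_top (ENNReal.tsum_le_tsum h4)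
  filter_upwards [h1] with A hA
  obtain ⟨i₀, hi₀⟩ := eventually_atTop.1 hA
  refine ⟨i₀ + n₀, fun ν hν hmem => ?_⟩
  have h2 := hi₀ (ν - n₀) (by omega)
  rw [Nat.sub_add_cancel (by omega)] at h2
  refine h2 ?_
  obtain ⟨w, hw, hk, hE⟩ := hmem
  refine ⟨w, hw, le_trans ?_ hk, hE⟩
  exact Nat.mul_le_mul_right _ (by omega)

/-- the bound is trivial if the advice is long -/
theorem triv {a n : ℕ} (h : n < a) {N : ℕ} (hN : N ≤ 2 ^ n) : (N : ℝ) ≤ 2 ^ n / 2 +
    (n + 1) ^ 2 * Real.sqrt (2 ^ a * (2 ^ n * Real.sqrt (2 ^ n))) := by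
  have h2 : (N : ℝ) ≤ 2 ^ n := by exact_mod_cast hN
  refine h2.trans ?_
  have h3 : (2 : ℝ) ^ n ≤ Real.sqrt (2 ^ a * (2 ^ n * Real.sqrt (2 ^ n))) := by
    refine Real.le_sqrt_of_sq_le ?_
    have h4 : (2 : ℝ) ^ n ≤ 2 ^ a := pow_le_pow_right₀ (by norm_num) h.le
    have h5 : (1 : ℝ) ≤ Real.sqrt (2 ^ n) := by
      rw [Real.one_le_sqrt]
      exact one_le_pow₀ (by norm_num)
    have h6 : (0 : ℝ) < 2 ^ n := by positivity
    calc ((2 : ℝ) ^ n) ^ 2 = 2 ^ n * (2 ^ n * 1) := by ring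
      _ ≤ 2 ^ a * (2 ^ n * Real.sqrt (2 ^ n)) := by gcongr
  have h4 : (1 : ℝ) ≤ (n + 1) ^ 2 := by
    refine one_le_pow₀ ?_
    have : (0 : ℝ) ≤ n := Nat.cast_nonneg n
    linarith
  have h5 := Real.sqrt_nonneg (2 ^ a * (2 ^ n * Real.sqrt (2 ^ n)))
  have h6 : (0 : ℝ) < 2 ^ n := by positivity
  nlinarith

theorem len_le (n : ℕ) (P : List Bool → Prop) :
    Set.ncard {x : List Bool | x.length = n ∧ P x} ≤ 2 ^ n := by
  classical
  rw [ncard_len]
  refine (Finset.card_filter_le _ _).trans (le_of_eq ?_)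
  rw [Finset.card_univ, Fintype.card_fin]

theorem outV_of {M : Alg} {B : Oracle} {V : List Bool → List Bool}
    (hM : ∀ x, M.out B x = some (V x)) : outV M B = V := by
  funext y
  unfold outV
  rw [hM]
  rfl

/-- all the verifiers are correct for hardly more than one half of the strings -/
theorem ae_main {μ : ℕ → ℕ} {pre : List Bool} {O : Oracle → Oracle} (hO : LateP pre O) :
    ∀ᵐ A ∂(randomOracle fun _ => fair), ∀ V : List Bool → List Bool, IsFP (O A) V →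
      ∀ c : ℕ, ∃ C : ℕ, ∀ n ≥ C, C * n ≤ μ n → ∀ w : List Bool,
        (good V (2 ^ (c * (n + 1))) n w (hardA μ A) : ℝ) ≤ 2 ^ n / 2 +
          (n + 1) ^ 2 * Real.sqrt (2 ^ w.length * (2 ^ n * Real.sqrt (2 ^ n))) := by
  have h1 : ∀ᵐ A ∂(randomOracle fun _ => fair), ∀ (M : Alg) (c : ℕ),
      ∃ C : ℕ, ∀ n ≥ C, A ∉ Gv μ (fun n w => Ev μ O M c n w) C n := by
    rw [ae_all_iff]
    intro M
    rw [ae_all_iff]
    intro c
    exact ae_gv (corr hO M c)
  filter_upwards [h1] with A hA V hV c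
  obtain ⟨M, hM⟩ := hV
  obtain ⟨C, hC⟩ := hA M c
  refine ⟨C, fun n hn hμ w => ?_⟩
  by_cases hw : w.length ≤ n
  · by_contra hcon
    push Not at hcon
    refine hC n hn ⟨w, hw, hμ, ?_⟩
    show (2 : ℝ) ^ n / 2 + ex n w.length < good (outV M (O A)) (2 ^ (c * (n + 1))) n w (hardA μ A)
    rw [outV_of hM]
    exact hcon
  · exact triv (by omega) (len_le n _)

/-- all the languages in `NE` agree with the complement on hardly more than one half of the
strings -/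
theorem ae_mainN {μ : ℕ → ℕ} {pre : List Bool} {O : Oracle → Oracle} (hO : LateP pre O) :
    ∀ᵐ A ∂(randomOracle fun _ => fair), ∀ S : Set (List Bool), LinExp (IsSig (O A) 1) S →
      ∃ C : ℕ, ∀ n ≥ C, C * n ≤ μ n → ∀ w : List Bool,
        ((Set.ncard {x : List Bool | x.length = n ∧ (pairBits x w ∈ S ↔ x ∉ hardA μ A)} : ℕ) : ℝ) ≤
          2 ^ n / 2 +
          (n + 1) ^ 2 * Real.sqrt (2 ^ w.length * (2 ^ n * Real.sqrt (2 ^ n))) := by
  have h1 : ∀ᵐ A ∂(randomOracle fun _ => fair), ∀ (M : Alg) (p : Polynomial ℕ) (c : ℕ),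
      ∃ C : ℕ, ∀ n ≥ C, A ∉ Gv μ (fun n w => EvN μ O M p c n w) C n := by
    have hcp : Countable (Polynomial ℕ) := Pool.Agent.H622R2.Exp.N1.countable_poly
    rw [ae_all_iff]
    intro M
    rw [ae_all_iff]
    intro p
    rw [ae_all_iff]
    intro c
    exact ae_gv (corrN hO M p c)
  filter_upwards [h1] with A hA S hS
  obtain ⟨c, S', ⟨V, p, ⟨M, hM⟩, hS'⟩, hS⟩ := hS
  obtain ⟨C, hC⟩ := hA M p c
  refine ⟨C, fun n hn hμ w => ?_⟩
  by_cases hw : w.length ≤ n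
  · by_contra hcon
    push Not at hcon
    refine hC n hn ⟨w, hw, hμ, ?_⟩
    show (2 : ℝ) ^ n / 2 + ex n w.length < (Set.ncard {x : List Bool | x.length = n ∧
      NCor (outV M (O A)) p c w (hardA μ A) x} : ℕ)
    rw [outV_of hM]
    have e : {x : List Bool | x.length = n ∧ NCor V p c w (hardA μ A) x} =
        {x : List Bool | x.length = n ∧ (pairBits x w ∈ S ↔ x ∉ hardA μ A)} := by
      ext x
      show (_ ∧ (NAcc V p c w x ↔ _)) ↔ (_ ∧ _)
      rw [hS, hS']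
      rfl
    rw [e]
    exact hcon
  · exact triv (by omega) (len_le n _)

variable {g : ℕ → SAlg × Polynomial ℕ} {S : ℕ → Polynomial ℕ} {Φ : Oracle → Oracle}

/-- **The main theorem.** -/
theorem main (β : ℕ → ℕ) (hβ : Monotone β) (hβ' : Tendsto β atTop atTop)
    (μ : ℕ → ℕ) (hμ : ∀ n, μ n ≤ 2 ^ (n + 1)) :
    ∃ (T : Oracle) (E : Oracle → Oracle),
      (∀ B : Oracle, ∀ L, LinExp (IsPSPACE (join B (E B))) L → InExpTime β (join B (E B)) L) ∧
      ∀ E₀ : Oracle, ∀ᵐ A ∂(randomOracle fun _ => fair), ∀ O : Oracle,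
        O = join (join (join A E₀) T) (E (join (join A E₀) T)) →
        ∃ L : Set (List Bool), LinExp (IsSig O 1) L ∧
          (∃ V : List Bool → List Bool, IsFP O V ∧ ∀ x, x ∈ L ↔
            ∃ y : List Bool, y.length = μ x.length ∧ V (pairBits y (padE 1 x)) = [true]) ∧
          (∀ S : Set (List Bool), LinExp (IsSig O 1) S → ∃ C : ℕ, ∀ n ≥ C,
            C * n ≤ μ n → ∀ w : List Bool,
              ((Set.ncard {x : List Bool | x.length = n ∧ (pairBits x w ∈ S ↔ x ∉ L)} : ℕ) : ℝ) ≤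
                2 ^ n / 2 +
                (n + 1) ^ 2 * Real.sqrt (2 ^ w.length * (2 ^ n * Real.sqrt (2 ^ n)))) ∧
          ∀ V : List Bool → List Bool, IsFP O V → ∀ c : ℕ, ∃ C : ℕ, ∀ n ≥ C,
            C * n ≤ μ n → ∀ w : List Bool,
              (good V (2 ^ (c * (n + 1))) n w L : ℝ) ≤ 2 ^ n / 2 +
                (n + 1) ^ 2 * Real.sqrt (2 ^ w.length * (2 ^ n * Real.sqrt (2 ^ n))) := by
  obtain ⟨g, hg⟩ := CC.exists_enum
  obtain ⟨S, Φ, hc⟩ := exists_cp g (bt (slow β))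
  refine ⟨tab μ, cod Φ, fun B L hL => time_espace hg hβ hc B hL, fun E₀ => ?_⟩
  have hl := late_coded (slow_mono hβ) (slow_tendsto hβ') hc (tab μ) E₀
  filter_upwards [ae_main hl (μ := μ), ae_mainN hl (μ := μ)] with A hA hA' O hO
  subst hO
  refine ⟨hardA μ A, ?_, ?_, hA', hA⟩
  · exact hardA_sig hμ (pre := [false, false, false]) (pre' := [false, true]) (fun q => rfl)
      (fun q => rfl)
  · exact hardA_guess (pre := [false, false, false]) (pre' := [false, true]) (fun q => rfl)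
      (fun q => rfl)

end Pool.Agent.J6H31.AW
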