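import Pool.Agent.J6H31.AW.Second
import Pool.Agent.J6H31.AV.Core

/-!
# Games with short conversations do not notice hidden blocks of ones
-/

set_option autoImplicit false
set_option linter.unusedSectionVars false

namespace Pool.Agent.J6H31.AW

open Finset H568R2 Pool.Agent.H676 Pool.Agent.H620R2.Gauge Pool.Agent.H591R3.PHG
open Pool.Agent.J6H31.AV

section game

variable {PP Ω : Type} [Fintype Ω]

open Classical in
/-- the number of the random strings for which the event happens -/
noncomputable def cnt (E : Ω → Prop) : ℕ := (univ.filter E).card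

theorem cnt_eq (E : Ω → Prop) [DecidablePred E] : cnt E = (univ.filter E).card := by
  unfold cnt
  congr

theorem cnt_le (E : Ω → Prop) : cnt E ≤ Fintype.card Ω := by
  classical
  rw [cnt_eq]
  exact (Finset.card_filter_le _ _).trans (le_of_eq Finset.card_univ)

theorem cnt_le_add {E E' E'' : Ω → Prop} (h : ∀ r, E r → E' r ∨ E'' r) :
    cnt E ≤ cnt E' + cnt E'' := by
  classical
  unfold cnt
  refine (Finset.card_le_card ?_).trans (Finset.card_union_le _ _)
  intro r hr
  rw [Finset.mem_filter] at hr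
  rw [Finset.mem_union, Finset.mem_filter, Finset.mem_filter]
  rcases h r hr.2 with h1 | h1
  · exact Or.inl ⟨hr.1, h1⟩
  · exact Or.inr ⟨hr.1, h1⟩

/-- the best prover -/
theorem exists_best [Nonempty PP] (acc : PP → Ω → Prop) :
    ∃ P : PP, ∀ P' : PP, cnt (acc P') ≤ cnt (acc P) := by
  classical
  have h1 : (Set.range fun P : PP => cnt (acc P)).Nonempty := Set.range_nonempty _
  have h2 : BddAbove (Set.range fun P : PP => cnt (acc P)) := by
    refine ⟨Fintype.card Ω, ?_⟩
    rintro _ ⟨P, rfl⟩
    exact cnt_le _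
  obtain ⟨P, hP⟩ := Nat.sSup_mem h1 h2
  refine ⟨P, fun P' => ?_⟩
  dsimp only at hP
  rw [hP]
  exact le_csSup h2 ⟨P', rfl⟩

/-- the best prover -/
noncomputable def best [Nonempty PP] (acc : PP → Ω → Prop) : PP := (exists_best acc).choose

theorem best_spec [Nonempty PP] (acc : PP → Ω → Prop) (P : PP) :
    cnt (acc P) ≤ cnt (acc (best acc)) := (exists_best acc).choose_spec P

/-- the value of the game, moved to `[-1, 1]` -/
noncomputable def score [Nonempty PP] (acc : PP → Ω → Prop) : ℝ :=
  max (-1) (min 1 (6 * ((cnt (acc (best acc)) : ℝ) / Fintype.card Ω - 1 / 2)))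

theorem abs_score [Nonempty PP] (acc : PP → Ω → Prop) : |score acc| ≤ 1 := by
  unfold score
  rw [abs_le]
  exact ⟨le_max_left _ _, max_le (by norm_num) (min_le_left _ _)⟩

theorem clip_lip (a b : ℝ) : max 0 (max (-1) (min 1 a) - max (-1) (min 1 b)) ≤ max 0 (a - b) := by
  rcases le_total a b with h | h
  · rw [max_eq_left (by linarith : a - b ≤ 0)]
    refine max_le le_rfl ?_
    have : max (-1) (min 1 a) ≤ max (-1) (min 1 b) :=
      max_le_max le_rfl (min_le_min le_rfl h)
    linarith
  · rw [max_eq_right (by linarith : 0 ≤ a - b)]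
    refine max_le (by linarith) ?_
    have h1 : max (-1) (min 1 a) ≤ max (-1) (min 1 b) + (a - b) := by
      refine max_le ?_ ?_
      · have := le_max_left (-1) (min 1 b)
        linarith
      · have h2 := le_max_right (-1) (min 1 b)
        have h3 : min 1 a ≤ min 1 b + (a - b) := by
          rcases le_total 1 b with h4 | h4
          · rw [min_eq_left h4]
            have := min_le_left 1 a
            linarith
          · rw [min_eq_right h4]
            have := min_le_right 1 a
            linarith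
        linarith
    linarith

/-- the value changes little if the acceptance changes for few random strings only -/
theorem score_le [Nonempty PP] [Nonempty Ω] (acc acc' : PP → Ω → Prop) (E : Ω → Prop)
    (h : ∀ r, acc' (best acc') r → acc (best acc') r ∨ E r) :
    max 0 (score acc' - score acc) ≤ 6 * ((cnt E : ℝ) / Fintype.card Ω) := by
  have hc : (0 : ℝ) < Fintype.card Ω := by exact_mod_cast Fintype.card_pos
  unfold score
  refine (clip_lip _ _).trans ?_
  have h1 : cnt (acc' (best acc')) ≤ cnt (acc (best acc)) + cnt E :=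
    (cnt_le_add h).trans (Nat.add_le_add_right (best_spec acc _) _)
  have h2 : (cnt (acc' (best acc')) : ℝ) ≤ cnt (acc (best acc)) + cnt E := by exact_mod_cast h1
  have h3 : (cnt (acc' (best acc')) : ℝ) / Fintype.card Ω ≤
      cnt (acc (best acc)) / Fintype.card Ω + cnt E / Fintype.card Ω := by
    rw [← add_div]
    exact div_le_div_of_nonneg_right h2 hc.le
  refine max_le (by positivity) ?_
  linarith

/-- the value if the game is correct for the answer `yes` -/
theorem score_yes [Nonempty PP] (acc : PP → Ω → Prop)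
    (h : ∃ P, (2 : ℝ) / 3 ≤ cnt (acc P) / Fintype.card Ω) : score acc = 1 := by
  obtain ⟨P, hP⟩ := h
  have h1 : (cnt (acc P) : ℝ) / Fintype.card Ω ≤ cnt (acc (best acc)) / Fintype.card Ω :=
    div_le_div_of_nonneg_right (by exact_mod_cast best_spec acc P) (Nat.cast_nonneg _)
  unfold score
  rw [min_eq_left (by linarith), max_eq_right (by norm_num)]

/-- the value if the game is correct for the answer `no` -/
theorem score_no [Nonempty PP] (acc : PP → Ω → Prop)
    (h : ∀ P, (cnt (acc P) : ℝ) / Fintype.card Ω ≤ 1 / 3) : score acc = -1 := by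
  have h1 := h (best acc)
  unfold score
  rw [max_eq_left]
  refine (min_le_right _ _).trans ?_
  linarith

end game

section rows

variable {X : Type} [Fintype X] [DecidableEq X] {K : ℕ}

/-- the law of a row -/
noncomputable def rowW (p : ℝ) (K : ℕ) (a : Fin K → Bool) : ℝ := ∏ k, ber p (a k)

/-- the zero row -/
def zrow (K : ℕ) : Fin K → Bool := fun _ => false

theorem ber_sum' (p : ℝ) : ∑ b : Bool, ber p b = 1 := by simp [ber]

theorem rowW_sum (p : ℝ) : ∑ a, rowW p K a = 1 := by
  have h := Ex_const (I := Fin K) (ber_sum' p) 1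
  unfold Ex at h
  simpa [rowW] using h

theorem rowW_nonneg {p : ℝ} (hp0 : 0 ≤ p) (hp1 : p ≤ 1) (a : Fin K → Bool) : 0 ≤ rowW p K a := by
  refine Finset.prod_nonneg fun k _ => ?_
  unfold ber
  split_ifs <;> linarith

theorem rowW_zrow (p : ℝ) : rowW p K (zrow K) = (1 - p) ^ K := by
  unfold rowW zrow
  simp [ber]

theorem rowW_true (p : ℝ) (k : Fin K) :
    ∑ a, rowW p K a * (if a k = true then 1 else 0) = p := by
  have h := Ex_fac (X := Fin K) (R := Bool) (ber_sum' p) k (fun b => if b = true then (1 : ℝ) else 0)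
    (fun _ => 1) (fun _ _ => rfl)
  rw [Ex_const (ber_sum' p), mul_one] at h
  unfold Ex at h
  simp only [mul_one] at h
  unfold rowW
  rw [h]
  simp [ber]

variable {PP Ω : Type} [Fintype Ω] [Nonempty PP] [Nonempty Ω]

/-- **A random row is hardly noticed.** -/
theorem viol_le {p : ℝ} (hp0 : 0 ≤ p) (hp1 : p ≤ 1) (acc : (X → Fin K → Bool) → PP → Ω → Prop)
    (tch : (X → Fin K → Bool) → PP → Ω → Finset (X × Fin K)) {s : ℕ}
    (hs : ∀ σ P r, (tch σ P r).card ≤ s)
    (hst : ∀ σ σ' P r, (∀ g ∈ tch σ P r, σ' g.1 g.2 = σ g.1 g.2) → (acc σ P r → acc σ' P r))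
    (y : X) : Ex (rowW p K) (viol (zrow K) (fun σ => score (acc σ)) y) ≤ 6 * (s * p) := by
  classical
  have hc : (0 : ℝ) < Fintype.card Ω := by exact_mod_cast Fintype.card_pos
  have hw0 : ∀ a, 0 ≤ rowW p K a := rowW_nonneg hp0 hp1
  -- the touched strings
  set B : (X → Fin K → Bool) → Ω → Finset (X × Fin K) := fun σ r =>
    tch (Function.update σ y (zrow K)) (best (acc (Function.update σ y (zrow K)))) r with hB
  have hBu : ∀ σ a, B (Function.update σ y a) = B σ := by
    intro σ a
    simp only [hB, Function.update_idem]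
  have h1 : ∀ σ : X → Fin K → Bool, viol (zrow K) (fun σ => score (acc σ)) y σ ≤
      6 / Fintype.card Ω * ∑ r, ∑ g ∈ B σ r, (if σ y g.2 = true then (1 : ℝ) else 0) := by
    intro σ
    unfold viol
    refine (score_le (acc σ) (acc (Function.update σ y (zrow K)))
      (fun r => ∃ g ∈ B σ r, σ y g.2 = true) fun r hr => ?_).trans ?_
    · by_cases hE : ∃ g ∈ B σ r, σ y g.2 = true
      · exact Or.inr hE
      · push Not at hE
        refine Or.inl (hst _ _ _ _ (fun g hg => ?_) hr)
        by_cases hgy : g.1 = y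
        · rw [hgy, Function.update_self]
          have h2 := hE g hg
          show σ y g.2 = false
          cases h3 : σ y g.2
          · rfl
          · exact absurd h3 h2
        · rw [Function.update_of_ne hgy]
    · have h2 : (cnt (fun r => ∃ g ∈ B σ r, σ y g.2 = true) : ℝ) ≤
          ∑ r, ∑ g ∈ B σ r, (if σ y g.2 = true then (1 : ℝ) else 0) := by
        have h3 : (cnt (fun r => ∃ g ∈ B σ r, σ y g.2 = true) : ℝ) =
            ∑ r : Ω, if ∃ g ∈ B σ r, σ y g.2 = true then (1 : ℝ) else 0 := by
          rw [cnt_eq, Finset.sum_ite, Finset.sum_const_zero, add_zero, Finset.sum_const,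
            nsmul_eq_mul, mul_one]
        rw [h3]
        refine Finset.sum_le_sum fun r _ => ?_
        split_ifs with h
        · obtain ⟨g, hg, hg2⟩ := h
          have h4 := Finset.single_le_sum (f := fun g : X × Fin K =>
            (if σ y g.2 = true then (1 : ℝ) else 0)) (fun g _ => by split_ifs <;> norm_num) hg
          simp only [hg2, if_true] at h4
          exact h4
        · exact Finset.sum_nonneg fun g _ => by split_ifs <;> norm_num
      calc 6 * ((cnt (fun r => ∃ g ∈ B σ r, σ y g.2 = true) : ℝ) / Fintype.card Ω)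
          = 6 / Fintype.card Ω * (cnt (fun r => ∃ g ∈ B σ r, σ y g.2 = true) : ℝ) := by ring
        _ ≤ _ := mul_le_mul_of_nonneg_left h2 (by positivity)
  refine (Ex_mono hw0 h1).trans ?_
  rw [Ex_resample (rowW_sum p) _ y]
  have h2 : ∀ σ : X → Fin K → Bool, ∑ a, rowW p K a * (6 / Fintype.card Ω * ∑ r, ∑ g ∈
      B (Function.update σ y a) r,
        (if Function.update σ y a y g.2 = true then (1 : ℝ) else 0)) ≤ 6 * (s * p) := by
    intro σ
    simp only [hBu, Function.update_self]
    have h3 : ∑ a, rowW p K a * (6 / Fintype.card Ω * ∑ r, ∑ g ∈ B σ r,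
        (if a g.2 = true then (1 : ℝ) else 0)) =
        6 / Fintype.card Ω * ∑ r, ∑ g ∈ B σ r, ∑ a, rowW p K a *
          (if a g.2 = true then (1 : ℝ) else 0) := by
      have h4 : ∀ a, rowW p K a * (6 / Fintype.card Ω * ∑ r, ∑ g ∈ B σ r,
          (if a g.2 = true then (1 : ℝ) else 0)) = 6 / Fintype.card Ω * ∑ r, ∑ g ∈ B σ r,
            rowW p K a * (if a g.2 = true then (1 : ℝ) else 0) := by
        intro a
        rw [mul_left_comm]
        simp only [Finset.mul_sum]
      rw [Finset.sum_congr rfl fun a _ => h4 a, ← Finset.mul_sum, Finset.sum_comm]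
      congr 1
      refine Finset.sum_congr rfl fun r _ => ?_
      rw [Finset.sum_comm]
    rw [h3]
    simp only [rowW_true, Finset.sum_const, nsmul_eq_mul]
    have h5 : ∑ r : Ω, ((B σ r).card : ℝ) * p ≤ ∑ _r : Ω, (s : ℝ) * p := by
      refine Finset.sum_le_sum fun r _ => mul_le_mul_of_nonneg_right ?_ hp0
      exact_mod_cast hs _ _ _
    rw [Finset.sum_const, nsmul_eq_mul, Finset.card_univ] at h5
    calc 6 / (Fintype.card Ω : ℝ) * ∑ r, ((B σ r).card : ℝ) * p
        ≤ 6 / Fintype.card Ω * (Fintype.card Ω * (s * p)) :=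
          mul_le_mul_of_nonneg_left h5 (by positivity)
      _ = 6 * (s * p) := by field_simp
  refine (Ex_mono hw0 h2).trans (le_of_eq (Ex_const (rowW_sum p) _))

end rows

section bits

variable {X : Type} [Fintype X] [DecidableEq X] {K m : ℕ}
variable {PP Ω : Type} [Fintype Ω] [Nonempty PP] [Nonempty Ω]

/-- the game is correct for the complement of the language at `x` -/
def Cor (acc : X → ((X × Fin K) × Fin m → Bool) → PP → Ω → Prop)
    (ω : (X × Fin K) × Fin m → Bool) (x : X) : Prop :=
  ((¬ ∃ k, ∀ j, ω ((x, k), j) = true) → ∃ P, (2 : ℝ) / 3 ≤ cnt (acc x ω P) / Fintype.card Ω) ∧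
  ((∃ k, ∀ j, ω ((x, k), j) = true) → ∀ P, (cnt (acc x ω P) : ℝ) / Fintype.card Ω ≤ 1 / 3)

open Classical in
/-- **Few inputs are correct.** -/
theorem few_correct (hm : 1 ≤ m) [Nonempty X]
    (acc : X → ((X × Fin K) × Fin m → Bool) → PP → Ω → Prop)
    (Q : X → ((X × Fin K) × Fin m → Bool) → PP → Ω → Finset ((X × Fin K) × Fin m)) {s : ℕ}
    (hs : ∀ x ω P r, (Q x ω P r).card ≤ s)
    (hst : ∀ x ω ω' P r, (∀ i ∈ Q x ω P r, ω' i = ω i) → (acc x ω P r → acc x ω' P r))
    (hq : |(1 - ((1 : ℝ) / 2) ^ m) ^ K - 1 / 2| ≤ (1 / 2) ^ m)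
    (hsmall : (Fintype.card X : ℝ) ^ 2 * ((6 + 42 * s) * (1 / 2) ^ m) ≤ 1)
    {D : ℝ} (hD : 0 < D) :
    Ex (ber (1 / 2)) (fun ω : (X × Fin K) × Fin m → Bool =>
      if (Fintype.card X : ℝ) / 2 + D < (univ.filter fun x => Cor acc ω x).card then (1 : ℝ)
        else 0) ≤
      5 * (Fintype.card X * Real.sqrt (Fintype.card X)) / D ^ 2 := by
  rw [Ex_mixture hm]
  refine Ex_le_of_support (nall_nonneg hm) (nall_sum hm) fun P hP => ?_
  have hP' : ∀ g, ∃ j, P g j = false := by
    intro g
    by_contra hcon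
    push Not at hcon
    refine hP g ?_
    unfold nall
    rw [if_pos]
    intro i
    have := hcon i
    cases h : P g i
    · exact absurd h this
    · rfl
  rw [Ex_curry]
  set p : ℝ := (1 / 2) ^ m with hp
  have hp0 : 0 ≤ p := by positivity
  have hX : (1 : ℝ) ≤ Fintype.card X := by exact_mod_cast Fintype.card_pos
  have hX2 : (1 : ℝ) ≤ (Fintype.card X : ℝ) ^ 2 := one_le_pow₀ hX
  have hp6 : 6 * p ≤ 1 := by
    have h1 : 0 ≤ (6 + 42 * (s : ℝ)) * p := by positivity
    have h2 : 1 * ((6 + 42 * (s : ℝ)) * p) ≤ (Fintype.card X : ℝ) ^ 2 * ((6 + 42 * s) * p) :=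
      mul_le_mul_of_nonneg_right hX2 h1
    have h3 : 0 ≤ 42 * (s : ℝ) * p := by positivity
    nlinarith
  have hp1 : p ≤ 1 := by linarith
  set mk : (X → Fin K → Bool) → ((X × Fin K) × Fin m → Bool) := fun σ gi =>
    σ gi.1.1 gi.1.2 || P gi.1 gi.2 with hmk
  have hrow : ∀ σ x, (∃ k, ∀ j, mk σ ((x, k), j) = true) ↔ σ x ≠ zrow K := by
    intro σ x
    constructor
    · rintro ⟨k, hk⟩ h0
      obtain ⟨j, hj⟩ := hP' (x, k)
      have h1 := hk j
      simp only [hmk, h0, zrow, hj] at h1
      exact Bool.noConfusion h1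
    · intro h0
      by_contra hcon
      push Not at hcon
      refine h0 (funext fun k => ?_)
      obtain ⟨j, hj⟩ := hcon k
      show σ x k = false
      cases h1 : σ x k
      · rfl
      · exfalso
        refine hj ?_
        simp only [hmk, h1, Bool.true_or]
  -- the score
  set sc : X → (X → Fin K → Bool) → ℝ := fun x σ => score (acc x (mk σ)) with hsc
  have hv : ∀ x y, Ex (rowW p K) (viol (zrow K) (sc x) y) ≤ 6 * (s * p) := by
    intro x y
    refine viol_le hp0 hp1 (fun σ => acc x (mk σ))
      (fun σ P r => (Q x (mk σ) P r).image Prod.fst) (s := s)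
      (fun σ P r => Finset.card_image_le.trans (hs _ _ _ _)) (fun σ σ' P' r h => ?_) y
    refine hst _ _ _ _ _ fun i hi => ?_
    have h1 := h i.1 (Finset.mem_image_of_mem _ hi)
    simp only [hmk, h1]
  have hcor : ∀ σ x, Cor acc (mk σ) x → hh (zrow K) (σ x) * sc x σ = 1 / 2 := by
    intro σ x h
    unfold Cor at h
    rw [hrow] at h
    by_cases h0 : σ x = zrow K
    · have h1 := score_yes (acc x (mk σ)) (h.1 (not_not.2 h0))
      have h2 : hh (zrow K) (σ x) = 1 / 2 := if_pos h0
      simp only [hsc, h1, h2, mul_one]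
    · have h1 := score_no (acc x (mk σ)) (h.2 h0)
      have h2 : hh (zrow K) (σ x) = -1 / 2 := if_neg h0
      simp only [hsc, h1, h2]
      norm_num
  have h3 := cheb (w := rowW p K) (rowW_nonneg hp0 hp1) (rowW_sum p) (r0 := zrow K) (p := p)
    (κ := 6 * (s * p)) (D := D) (by rw [rowW_zrow]; exact hq) (by
      rw [rowW_zrow]
      have := (abs_le.1 hq).1
      linarith) (s := sc) (fun x σ => abs_score _) hv (by positivity) hX (by
      have e : (6 + 42 * (s : ℝ)) * p = 6 * p + 7 * (6 * (s * p)) := by ring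
      rw [e] at hsmall
      exact hsmall) hD (fun σ => univ.filter fun x => Cor acc (mk σ) x) (fun σ x hx =>
        hcor σ x (Finset.mem_filter.1 hx).2)
  exact h3

end bits

end Pool.Agent.J6H31.AW
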