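import Pool.Agent.J6H31.AW.Verif
import Pool.Agent.J6H31.AV.Final

/-!
# The complement of the language is hard on average for `NE` with advice
-/

set_option autoImplicit false

namespace Pool.Agent.J6H31.AW

open Pool.Agent.NPC Finset H568R2 Pool.Agent.H676 Pool.Agent.H620R2.Gauge Pool.Agent.H591R3.PHG
open Pool.Agent.J6H7.RO MeasureTheory Filter LangTrAux
open Pool.Agent.J6H49.PHC (mix mix_pre mix_off)
open Pool.Agent.J6H49.BI (LateP out_mixP prob_le_of_ovw2 fair MO_id)
open Pool.Agent.J6H49.EE (padE LinExp)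
open Pool.Agent.J6H31.AV

/-- the nondeterministic machine accepts -/
def NAcc (V : List Bool → List Bool) (p : Polynomial ℕ) (c : ℕ) (w x : List Bool) : Prop :=
  Quant (p.eval (padE c (pairBits x w)).length) V 1 true (padE c (pairBits x w))

/-- the nondeterministic machine is correct for the complement of `L` at `x` -/
def NCor (V : List Bool → List Bool) (p : Polynomial ℕ) (c : ℕ) (w : List Bool)
    (L : Set (List Bool)) (x : List Bool) : Prop := NAcc V p c w x ↔ x ∉ L

theorem iff_lem (a b : Prop) : (a ↔ ¬ b) ↔ ((¬ b → a) ∧ (b → ¬ a)) := by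
  by_cases ha : a <;> by_cases hb : b <;> simp [ha, hb]

/-- the nondeterministic machine is correct for the complement on many strings of length `n` -/
def EvN (μ : ℕ → ℕ) (O : Oracle → Oracle) (M : Alg) (p : Polynomial ℕ) (c n : ℕ)
    (w : List Bool) : Set Oracle :=
  {A | (2 : ℝ) ^ n / 2 + ex n w.length <
    (Set.ncard {x : List Bool | x.length = n ∧
      NCor (outV M (O A)) p c w (hardA μ A) x} : ℕ)}

theorem meas_nacc (μ : ℕ → ℕ) {O : Oracle → Oracle} (hO : MO O) (M : Alg) (p : Polynomial ℕ)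
    (c : ℕ) (w x : List Bool) :
    MeasurableSet {A | NCor (outV M (O A)) p c w (hardA μ A) x} :=
  meas_iff (meas_quant hO M _ 1 true _) (meas_hard μ x).compl

theorem meas_evN (μ : ℕ → ℕ) {O : Oracle → Oracle} (hO : MO O) (M : Alg) (p : Polynomial ℕ)
    (c n : ℕ) (w : List Bool) : MeasurableSet (EvN μ O M p c n w) := by
  classical
  have h1 : Measurable (fun A : Oracle => ∑ x : Fin (2 ^ n),
      if NCor (outV M (O A)) p c w (hardA μ A) (bitsOf n x.val) then (1 : ℝ) else 0) :=
    Finset.measurable_sum _ fun x _ => Measurable.ite (meas_nacc μ hO M p c w _)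
      measurable_const measurable_const
  have h2 : EvN μ O M p c n w = {A | (2 : ℝ) ^ n / 2 + ex n w.length < ∑ x : Fin (2 ^ n),
      if NCor (outV M (O A)) p c w (hardA μ A) (bitsOf n x.val) then (1 : ℝ) else 0} := by
    ext A
    unfold EvN
    rw [Set.mem_ofPred_eq, Set.mem_ofPred_eq,
      ncard_len n (fun x => NCor (outV M (O A)) p c w (hardA μ A) x), Finset.sum_ite,
      Finset.sum_const_zero, add_zero, Finset.sum_const, nsmul_eq_mul, mul_one]
  rw [h2]
  exact measurableSet_lt measurable_const h1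

/-- polynomial bounds -/
noncomputable def plR (c : ℕ) : Polynomial ℕ := 10 * Polynomial.X + Polynomial.X ^ (3 * c)

/-- polynomial bounds -/
noncomputable def plS (p : Polynomial ℕ) (c : ℕ) : Polynomial ℕ :=
  2 * p.comp (plR c) + 1 + plR c

theorem pad_le {c n : ℕ} {y : List Bool} (hy : y.length ≤ 3 * n + 1) :
    (padE c y).length ≤ (plR c).eval (2 ^ (n + 1)) := by
  unfold padE plR
  rw [Pool.Agent.H620R2.Gauge.length_pairBits, List.length_replicate]
  simp only [Polynomial.eval_add, Polynomial.eval_mul, Polynomial.eval_X, Polynomial.eval_pow,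
    Polynomial.eval_ofNat]
  have h1 : n + 1 < 2 ^ (n + 1) := Nat.lt_two_pow_self
  have h2 : 2 ^ (c * (y.length + 1)) ≤ (2 ^ (n + 1)) ^ (3 * c) := by
    rw [← pow_mul]
    apply Nat.pow_le_pow_right (by norm_num)
    have h3 : c * (y.length + 1) ≤ c * (3 * (n + 1)) := Nat.mul_le_mul_left _ (by omega)
    have h4 : c * (3 * (n + 1)) = (n + 1) * (3 * c) := by ring
    omega
  omega

theorem wit_le {p : Polynomial ℕ} {c n : ℕ} {y u : List Bool} (hy : y.length ≤ 3 * n + 1)
    (hu : u.length ≤ p.eval (padE c y).length) :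
    (pairBits u (padE c y)).length ≤ (plS p c).eval (2 ^ (n + 1)) := by
  have h1 := pad_le (c := c) hy
  have h2 : u.length ≤ p.eval ((plR c).eval (2 ^ (n + 1))) := hu.trans (eval_mono _ h1)
  unfold plS
  rw [Pool.Agent.H620R2.Gauge.length_pairBits]
  simp only [Polynomial.eval_add, Polynomial.eval_mul, Polynomial.eval_comp,
    Polynomial.eval_one, Polynomial.eval_ofNat]
  omega

theorem cnt_unit (E : Unit → Prop) : (E () → cnt E = 1) ∧ (¬ E () → cnt E = 0) := by
  classical
  rw [cnt_eq]
  constructor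
  · intro h
    have : (univ.filter E) = univ := by
      ext u
      simp [h]
    rw [this]
    rfl
  · intro h
    have : (univ.filter E) = ∅ := by
      ext u
      simp [h]
    rw [this]
    rfl

open Classical in
/-- **The bound for one length and one advice string.** -/
theorem corrN {μ : ℕ → ℕ} {pre : List Bool} {O : Oracle → Oracle}
    (hO : LateP pre O) (M : Alg) (p : Polynomial ℕ) (c : ℕ) :
    ∃ C : ℕ, ∀ n ≥ C, ∀ w : List Bool, w.length ≤ n → C * n ≤ μ n →
      prob (fun _ => fair) (EvN μ O M p c n w) ≤ 5 / ((n + 1) ^ 4 * 2 ^ w.length) := by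
  have htend : Tendsto (fun ν : ℕ => 2 ^ (ν + 1)) atTop atTop :=
    (tendsto_pow_atTop_atTop_of_one_lt (show 1 < 2 by norm_num)).comp (tendsto_add_atTop_nat 1)
  obtain ⟨n₀, hn₀⟩ := eventually_atTop.1 (htend.eventually (out_mixP hO M (plS p c)))
  obtain ⟨c', hc'⟩ := poly_le (M.p.comp (plS p c))
  refine ⟨n₀ + c' + 8, fun n hn w hw hμ => ?_⟩
  have h1 := hn₀ n (by omega)
  have hn1 : 1 ≤ n := by omega
  have hr := hc' n hn1
  rw [Polynomial.eval_comp] at hr
  have hμ1 : 2 * n + c' * n + 6 ≤ μ n := by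
    have h2 : (n₀ + c' + 8) * n = n₀ * n + c' * n + 8 * n := by ring
    have h3 : 0 ≤ n₀ * n := Nat.zero_le _
    omega
  have hmS := meas_evN μ hO.meas M p c n w
  have key := prob_le_of_ovw2 (q := fair) (pos_inj μ n) hmS hmS (κ := 0)
    (ε := 5 / ((n + 1) ^ 4 * 2 ^ w.length)) fun A => ?_
  · linarith
  rw [zero_mul, zero_add]
  have hoff : ∀ (ω : (Fin (2 ^ n) × Fin (KK (μ n))) × Fin (μ n) → Bool)
      (x : List Bool), x.length < 2 ^ (n + 1) → ovw (pos μ n) ω A x = A x := by
    intro ω x hx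
    exact ovw_off _ _ fun i hi => by
      have := pos_len μ n i
      rw [hi] at this
      omega
  have hxlen : ∀ x : Fin (2 ^ n), (pairBits (bitsOf n x.val) w).length ≤ 3 * n + 1 := by
    intro x
    rw [Pool.Agent.H620R2.Gauge.length_pairBits, length_bitsOf]
    omega
  set z : Fin (2 ^ n) → List Bool := fun x => padE c (pairBits (bitsOf n x.val) w) with hz
  set gl : Fin (2 ^ n) → ℕ := fun x => p.eval (z x).length with hgl
  -- the number of the questions
  set s := 2 ^ (c' * n) with hs
  -- the game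
  set acc : Fin (2 ^ n) → ((Fin (2 ^ n) × Fin (KK (μ n))) × Fin (μ n) → Bool) →
      List Bool → Unit → Prop := fun x ω u _ =>
      u.length ≤ gl x ∧ outV M (mix pre O A (ovw (pos μ n) ω A)) (pairBits u (z x)) = [true]
      with hacc
  set Q : Fin (2 ^ n) → ((Fin (2 ^ n) × Fin (KK (μ n))) × Fin (μ n) → Bool) →
      List Bool → Unit → Finset ((Fin (2 ^ n) × Fin (KK (μ n))) × Fin (μ n)) := fun x ω u _ =>
      if u.length ≤ gl x then univ.filter fun i =>
        pre ++ pos μ n i ∈ qs M (mix pre O A (ovw (pos μ n) ω A)) (pairBits u (z x)) else ∅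
      with hQ
  have hQc : ∀ x ω u r, (Q x ω u r).card ≤ s := by
    intro x ω u r
    simp only [hQ]
    split_ifs with hu
    · refine le_trans ?_ ((qrun_card M (mix pre O A (ovw (pos μ n) ω A)) (pairBits u (z x))
        (M.p.eval (pairBits u (z x)).length) []).trans ((eval_mono _
          (wit_le (hxlen x) hu)).trans hr))
      refine Finset.card_le_card_of_injOn (fun i => pre ++ pos μ n i) (fun i hi => ?_)
        fun i _ j _ h => ?_
      · rw [Finset.mem_coe, Finset.mem_filter] at hi
        exact hi.2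
      · exact pos_inj μ n (List.append_cancel_left h)
    · simp
  have hQs : ∀ x ω ω' u r, (∀ i ∈ Q x ω u r, ω' i = ω i) → (acc x ω u r → acc x ω' u r) := by
    intro x ω ω' u r h hac
    obtain ⟨hu, hac⟩ := hac
    refine ⟨hu, ?_⟩
    rw [← hac]
    refine (qs_stab M (A := mix pre O A (ovw (pos μ n) ω A)) (pairBits u (z x))
      fun q hq => ?_).2
    by_cases hpre : ∃ y, q = pre ++ y
    · obtain ⟨y, rfl⟩ := hpre
      rw [mix_pre, mix_pre]
      by_cases hy : ∃ i, pos μ n i = y
      · obtain ⟨i, rfl⟩ := hy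
        rw [ovw_pos (pos_inj μ n), ovw_pos (pos_inj μ n)]
        refine h i ?_
        simp only [hQ]
        rw [if_pos hu, Finset.mem_filter]
        exact ⟨Finset.mem_univ _, hq⟩
      · push Not at hy
        rw [ovw_off _ _ hy, ovw_off _ _ hy]
    · push Not at hpre
      rw [mix_off O A _ hpre, mix_off O A _ hpre]
  have hcard : (Fintype.card (Fin (2 ^ n)) : ℝ) = 2 ^ n := by
    rw [Fintype.card_fin]
    push_cast
    rfl
  have hsmall : (Fintype.card (Fin (2 ^ n)) : ℝ) ^ 2 * ((6 + 42 * (s : ℝ)) * (1 / 2) ^ μ n) ≤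
      1 := by
    rw [hcard]
    obtain ⟨d, hd⟩ := Nat.exists_eq_add_of_le hμ1
    have h2 : (s : ℝ) = 2 ^ (c' * n) := by rw [hs]; push_cast; rfl
    have h3 : (1 : ℝ) ≤ 2 ^ (c' * n) := one_le_pow₀ (by norm_num)
    rw [hd, h2]
    calc ((2 : ℝ) ^ n) ^ 2 * ((6 + 42 * 2 ^ (c' * n)) * (1 / 2) ^ (2 * n + c' * n + 6 + d))
        ≤ ((2 : ℝ) ^ n) ^ 2 * ((64 * 2 ^ (c' * n)) * (1 / 2) ^ (2 * n + c' * n + 6 + d)) := by
          refine mul_le_mul_of_nonneg_left (mul_le_mul_of_nonneg_right ?_ (by positivity))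
            (by positivity)
          linarith
      _ = ((2 : ℝ) * (1 / 2)) ^ (2 * n) * (2 * (1 / 2)) ^ (c' * n) * (1 / 2) ^ d := by
          rw [mul_pow, mul_pow, pow_mul' 2 2 n]
          ring
      _ = (1 / 2) ^ d := by norm_num
      _ ≤ 1 := pow_le_one₀ (by norm_num) (by norm_num)
  have hb := few_correct (X := Fin (2 ^ n)) (K := KK (μ n)) (m := μ n) (by omega) acc
    Q (s := s) hQc hQs (KK_spec _) hsmall (ex_pos n w.length)
  have e1 : 5 * ((Fintype.card (Fin (2 ^ n)) : ℝ) * Real.sqrt (Fintype.card (Fin (2 ^ n)))) /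
      ex n w.length ^ 2 = 5 / ((n + 1) ^ 4 * 2 ^ w.length) := by
    rw [hcard]
    unfold ex
    rw [mul_pow, Real.sq_sqrt (by positivity)]
    have h2 : (0 : ℝ) < Real.sqrt (2 ^ n) := by positivity
    field_simp
  rw [e1] at hb
  refine le_trans (le_of_eq ?_) hb
  have hfair : (fair : ℝ) = 1 / 2 := rfl
  rw [hfair]
  refine congrArg (Ex (ber (1 / 2))) (funext fun ω => ?_)
  have hcor : ∀ x : Fin (2 ^ n), NCor (outV M (O (ovw (pos μ n) ω A))) p c w
      (hardA μ (ovw (pos μ n) ω A)) (bitsOf n x.val) ↔ Cor acc ω x := by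
    intro x
    have h2 : NAcc (outV M (O (ovw (pos μ n) ω A))) p c w (bitsOf n x.val) ↔
        ∃ u, acc x ω u () := by
      show (∃ u : List Bool, u.length ≤ gl x ∧
        outV M (O (ovw (pos μ n) ω A)) (pairBits u (z x)) = [true]) ↔ _
      refine exists_congr fun u => and_congr_right fun hu => ?_
      rw [h1 A (ovw (pos μ n) ω A) (hoff ω) _ (wit_le (hxlen x) hu)]
    have h3 : (∃ u, (2 : ℝ) / 3 ≤ cnt (acc x ω u) / Fintype.card Unit) ↔
        ∃ u, acc x ω u () := by
      refine exists_congr fun u => ?_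
      by_cases h : acc x ω u ()
      · rw [(cnt_unit _).1 h]
        simp only [h, iff_true, Fintype.card_unit, Nat.cast_one]
        norm_num
      · rw [(cnt_unit _).2 h]
        simp only [h, iff_false, Fintype.card_unit, Nat.cast_one, Nat.cast_zero]
        norm_num
    have h4 : (∀ u, (cnt (acc x ω u) : ℝ) / Fintype.card Unit ≤ 1 / 3) ↔
        ¬ ∃ u, acc x ω u () := by
      rw [not_exists]
      refine forall_congr' fun u => ?_
      by_cases h : acc x ω u ()
      · rw [(cnt_unit _).1 h]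
        simp only [h, not_true, iff_false, Fintype.card_unit, Nat.cast_one]
        norm_num
      · rw [(cnt_unit _).2 h]
        simp only [h, not_false_iff, iff_true, Fintype.card_unit, Nat.cast_one, Nat.cast_zero]
        norm_num
    unfold NCor Cor
    rw [h2, hard_ovw, h3, h4]
    exact iff_lem _ _
  have h10 : (ovw (pos μ n) ω A ∈ EvN μ O M p c n w) ↔
      (Fintype.card (Fin (2 ^ n)) : ℝ) / 2 + ex n w.length <
        (univ.filter fun x => Cor acc ω x).card := by
    unfold EvN
    rw [Set.mem_ofPred_eq, ncard_len, hcard]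
    have e2 : (univ.filter fun x : Fin (2 ^ n) =>
        NCor (outV M (O (ovw (pos μ n) ω A))) p c w (hardA μ (ovw (pos μ n) ω A))
          (bitsOf n x.val)) = univ.filter fun x => Cor acc ω x :=
      Finset.filter_congr fun x _ => hcor x
    rw [e2]
  exact if_congr h10 rfl rfl

end Pool.Agent.J6H31.AW
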