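import Pool.Agent.J6H49.IP.Run
import Pool.Agent.J6H31.AV.Corr

/-!
# The questions asked during a conversation

(After `Pool.Agent.J6H49.IP.Run`, for the other copy of the definition of oracle algorithms.)
-/

set_option autoImplicit false

namespace Pool.Agent.J6H31.AW

open Pool.Agent.NPC Pool.Agent.H620R2.Gauge Pool.Agent.J6H7.RO MeasureTheory Finset H568R2
open Pool.Agent.H676 Pool.Agent.H591R3.PHG LangTrAux
open Pool.Agent.J6H49.IP (talk Accepts il talk_length input_length)
open Pool.Agent.J6H49.PHC (mix mix_pre mix_off)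
open Pool.Agent.J6H31.AV

open Classical in
/-- the questions of an oracle algorithm -/
noncomputable def qrun (M : Alg) (A : Oracle) (x : List Bool) : ℕ → List Bool → Finset (List Bool)
  | 0, _ => ∅
  | n + 1, a =>
    match M.D (pairBits x a) with
    | [] => ∅
    | true :: _ => ∅
    | false :: q => insert q (qrun M A x n (a ++ [A q]))

theorem qrun_card (M : Alg) (A : Oracle) (x : List Bool) : ∀ (n : ℕ) (a : List Bool),
    (qrun M A x n a).card ≤ n := by
  intro n
  induction n with
  | zero => intro a; simp [qrun]
  | succ n ih =>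
    intro a
    rcases hq : M.D (pairBits x a) with _ | ⟨c, q⟩
    · simp [qrun, hq]
    · cases c with
      | true => simp [qrun, hq]
      | false =>
        simp only [qrun, hq]
        exact (Finset.card_insert_le _ _).trans (by
          have := ih (a ++ [A q])
          omega)

theorem qrun_stab (M : Alg) {A A' : Oracle} (x : List Bool) : ∀ (n : ℕ) (a : List Bool),
    (∀ q ∈ qrun M A x n a, A' q = A q) →
      qrun M A' x n a = qrun M A x n a ∧ M.run A' x n a = M.run A x n a := by
  intro n
  induction n with
  | zero => intro a _; exact ⟨rfl, rfl⟩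
  | succ n ih =>
    intro a h
    rcases hq : M.D (pairBits x a) with _ | ⟨c, q⟩
    · simp [qrun, Alg.run, hq]
    · cases c with
      | true => simp [qrun, Alg.run, hq]
      | false =>
        simp only [qrun, hq] at h
        have h1 := h q (Finset.mem_insert_self _ _)
        obtain ⟨h2, h3⟩ := ih (a ++ [A q]) fun r hr => h r (Finset.mem_insert_of_mem hr)
        simp only [qrun, Alg.run, hq, h1]
        exact ⟨by rw [h2], h3⟩

/-- all questions on input `x` -/
noncomputable def qs (M : Alg) (A : Oracle) (x : List Bool) : Finset (List Bool) :=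
  qrun M A x (M.p.eval x.length) []

theorem qs_stab (M : Alg) {A A' : Oracle} (x : List Bool) (h : ∀ q ∈ qs M A x, A' q = A q) :
    qs M A' x = qs M A x ∧ outV M A' x = outV M A x := by
  obtain ⟨h1, h2⟩ := qrun_stab M x _ _ h
  refine ⟨h1, ?_⟩
  unfold outV Alg.out
  rw [h2]

open Classical in
/-- the questions in the first `k` rounds -/
noncomputable def tq (M : Alg) (A : Oracle) (P : List (List Bool) → List Bool) (ℓ : ℕ)
    (x w : List Bool) : ℕ → Finset (List Bool)
  | 0 => ∅
  | k + 1 => tq M A P ℓ x w k ∪
      qs M A (pairBits x (pairBits w (talk (outV M A) P ℓ x w k).2))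

theorem tq_stab (M : Alg) {A A' : Oracle} (P : List (List Bool) → List Bool) (ℓ : ℕ)
    (x w : List Bool) : ∀ k : ℕ, (∀ q ∈ tq M A P ℓ x w k, A' q = A q) →
      tq M A' P ℓ x w k = tq M A P ℓ x w k ∧
      talk (outV M A') P ℓ x w k = talk (outV M A) P ℓ x w k := by
  classical
  intro k
  induction k with
  | zero => intro _; exact ⟨rfl, rfl⟩
  | succ k ih =>
    intro h
    simp only [tq, Finset.mem_union] at h
    obtain ⟨h1, h2⟩ := ih fun q hq => h q (Or.inl hq)
    obtain ⟨h3, h4⟩ := qs_stab M (A := A) (A' := A')
      (pairBits x (pairBits w (talk (outV M A) P ℓ x w k).2)) fun q hq => h q (Or.inr hq)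
    constructor
    · simp only [tq, h1, h2, h3]
    · simp only [talk, h2, h4]

theorem tq_acc (M : Alg) {A A' : Oracle} (P : List (List Bool) → List Bool) (ℓ : ℕ)
    (x w : List Bool) (h : ∀ q ∈ tq M A P ℓ x w (ℓ + 1), A' q = A q) :
    Accepts (outV M A') P ℓ x w ↔ Accepts (outV M A) P ℓ x w := by
  classical
  simp only [tq, Finset.mem_union] at h
  obtain ⟨h1, h2⟩ := tq_stab M (A := A) (A' := A') P ℓ x w ℓ fun q hq => h q (Or.inl hq)
  obtain ⟨h3, h4⟩ := qs_stab M (A := A) (A' := A')
    (pairBits x (pairBits w (talk (outV M A) P ℓ x w ℓ).2)) fun q hq => h q (Or.inr hq)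
  unfold Accepts
  rw [h2, h4]

theorem tq_card (M : Alg) (A : Oracle) (P : List (List Bool) → List Bool) {ℓ n : ℕ}
    {x w : List Bool} (hx : x.length = n) (hw : w.length = ℓ) : ∀ k ≤ ℓ + 1,
      (tq M A P ℓ x w k).card ≤ k * M.p.eval (il n ℓ) := by
  classical
  intro k
  induction k with
  | zero => intro _; simp [tq]
  | succ k ih =>
    intro hk
    simp only [tq]
    refine (Finset.card_union_le _ _).trans ?_
    have h1 := ih (by omega)
    have h2 : (qs M A (pairBits x (pairBits w (talk (outV M A) P ℓ x w k).2))).card ≤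
        M.p.eval (il n ℓ) :=
      (qrun_card M A _ _ _).trans (eval_mono _ (input_length _ P hx hw (by omega)))
    have e : (k + 1) * M.p.eval (il n ℓ) = k * M.p.eval (il n ℓ) + M.p.eval (il n ℓ) := by ring
    omega

/-- the conversation depends on the answers of the verifier to short inputs only -/
theorem talk_congr {V V' : List Bool → List Bool} (P : List (List Bool) → List Bool) {ℓ n : ℕ}
    {x w : List Bool} (hx : x.length = n) (hw : w.length = ℓ)
    (h : ∀ y : List Bool, y.length ≤ il n ℓ → V y = V' y) : ∀ k ≤ ℓ,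
      talk V P ℓ x w k = talk V' P ℓ x w k := by
  intro k
  induction k with
  | zero => intro _; rfl
  | succ k ih =>
    intro hk
    have h1 := ih (by omega)
    have h2 := h _ (input_length V P hx hw (k := k) (by omega))
    simp only [talk]
    rw [h1] at h2 ⊢
    rw [h2]

theorem accepts_congr {V V' : List Bool → List Bool} (P : List (List Bool) → List Bool) {ℓ n : ℕ}
    {x w : List Bool} (hx : x.length = n) (hw : w.length = ℓ)
    (h : ∀ y : List Bool, y.length ≤ il n ℓ → V y = V' y) :
    Accepts V P ℓ x w ↔ Accepts V' P ℓ x w := by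
  unfold Accepts
  have h2 := h _ (input_length V P hx hw (k := ℓ) le_rfl)
  rw [talk_congr P hx hw h ℓ le_rfl] at h2 ⊢
  rw [h2]

/-! ### Measurability -/

theorem meas_val {O : Oracle → Oracle} (hO : MO O) (M : Alg) (y z : List Bool) :
    MeasurableSet {A | outV M (O A) y = z} := by
  have h1 : ∀ z' : List Bool, MeasurableSet {A | M.out (O A) y = some z'} := fun z' =>
    meas_run hO M y z' _ []
  by_cases hz : z = []
  · subst hz
    have : {A | outV M (O A) y = []} = (⋃ z' : List Bool, {A | z' ≠ [] ∧
        M.out (O A) y = some z'})ᶜ := by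
      ext A
      simp only [Set.mem_ofPred_eq, Set.mem_compl_iff, Set.mem_iUnion, not_exists, not_and, outV]
      constructor
      · intro h z' hz' h2
        rw [h2] at h
        exact hz' h
      · intro h
        rcases h2 : M.out (O A) y with _ | z'
        · rfl
        · by_contra h3
          exact h z' h3 h2
    rw [this]
    exact (MeasurableSet.iUnion fun z' => (MeasurableSet.const (z' ≠ [])).inter (h1 z')).compl
  · have : {A | outV M (O A) y = z} = {A | M.out (O A) y = some z} := by
      ext A
      simp only [Set.mem_ofPred_eq, outV]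
      rcases h2 : M.out (O A) y with _ | z'
      · simp only [Option.getD_none, reduceCtorEq, iff_false]
        exact fun h => hz h.symm
      · simp
    rw [this]
    exact h1 z

/-- a property of the verifier which depends on finitely many values only -/
theorem meas_fin {V : Oracle → List Bool → List Bool}
    (hV : ∀ y z, MeasurableSet {A | V A y = z}) (F : Finset (List Bool))
    (Q : (List Bool → List Bool) → Prop)
    (hQ : ∀ V V' : List Bool → List Bool, (∀ y ∈ F, V y = V' y) → (Q V ↔ Q V')) :
    MeasurableSet {A | Q (V A)} := by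
  classical
  set ex : (F → List Bool) → List Bool → List Bool := fun π y =>
    if h : y ∈ F then π ⟨y, h⟩ else [] with hex
  have : {A | Q (V A)} = ⋃ π : F → List Bool, {A | Q (ex π) ∧ ∀ y : F, V A y.1 = π y} := by
    ext A
    simp only [Set.mem_ofPred_eq, Set.mem_iUnion]
    constructor
    · intro h
      refine ⟨fun y => V A y.1, ?_, fun y => rfl⟩
      refine (hQ _ _ fun y hy => ?_).1 h
      simp only [hex, hy, dite_true]
    · rintro ⟨π, h1, h2⟩
      refine (hQ _ _ fun y hy => ?_).1 h1
      simp only [hex, hy, dite_true]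
      exact (h2 ⟨y, hy⟩).symm
  rw [this]
  refine MeasurableSet.iUnion fun π => ?_
  have h3 : {A | Q (ex π) ∧ ∀ y : F, V A y.1 = π y} = {A | Q (ex π)} ∩
      ⋂ y : F, {A | V A y.1 = π y} := by
    ext A
    simp
  rw [h3]
  exact (MeasurableSet.const _).inter (MeasurableSet.iInter fun y => hV _ _)

/-! ### The touched bits -/

open Classical in
/-- the bits of the blocks which are touched during the conversation -/
noncomputable def tb {I : Type} [Fintype I] (ps : I → List Bool) (pre : List Bool)
    (O : Oracle → Oracle) (A : Oracle) (M : Alg) (ℓ : ℕ) (x : List Bool) (ω : I → Bool)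
    (P : List (List Bool) → List Bool) (r : List Bool) : Finset I :=
  univ.filter fun i => pre ++ ps i ∈ tq M (mix pre O A (ovw ps ω A)) P ℓ x r (ℓ + 1)

theorem tb_card {I : Type} [Fintype I] {ps : I → List Bool} (hps : Function.Injective ps)
    (pre : List Bool) (O : Oracle → Oracle) (A : Oracle) (M : Alg) {ℓ n : ℕ} {x : List Bool}
    (ω : I → Bool) (P : List (List Bool) → List Bool) {r : List Bool}
    (hx : x.length = n) (hr : r.length = ℓ) :
    (tb ps pre O A M ℓ x ω P r).card ≤ (ℓ + 1) * M.p.eval (il n ℓ) := by
  classical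
  refine le_trans ?_ (tq_card M (mix pre O A (ovw ps ω A)) P hx hr (ℓ + 1) le_rfl)
  refine Finset.card_le_card_of_injOn (fun i => pre ++ ps i) (fun i hi => ?_) fun i _ j _ h => ?_
  · unfold tb at hi
    rw [Finset.mem_coe, Finset.mem_filter] at hi
    exact hi.2
  · exact hps (List.append_cancel_left h)

theorem tb_stab {I : Type} [Fintype I] {ps : I → List Bool} (hps : Function.Injective ps)
    (pre : List Bool) (O : Oracle → Oracle) (A : Oracle) (M : Alg) (ℓ : ℕ) (x : List Bool)
    (ω ω' : I → Bool) (P : List (List Bool) → List Bool) (r : List Bool)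
    (h : ∀ i ∈ tb ps pre O A M ℓ x ω P r, ω' i = ω i)
    (hacc : Accepts (outV M (mix pre O A (ovw ps ω A))) P ℓ x r) :
    Accepts (outV M (mix pre O A (ovw ps ω' A))) P ℓ x r := by
  classical
  refine (tq_acc M P ℓ x r fun q hq => ?_).2 hacc
  by_cases hpre : ∃ z, q = pre ++ z
  · obtain ⟨z, rfl⟩ := hpre
    rw [mix_pre, mix_pre]
    by_cases hz : ∃ i, ps i = z
    · obtain ⟨i, rfl⟩ := hz
      rw [ovw_pos hps, ovw_pos hps]
      refine h i ?_
      unfold tb
      rw [Finset.mem_filter]
      exact ⟨Finset.mem_univ _, hq⟩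
    · push Not at hz
      rw [ovw_off _ _ hz, ovw_off _ _ hz]
  · push Not at hpre
    rw [mix_off O A _ hpre, mix_off O A _ hpre]

end Pool.Agent.J6H31.AW
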