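import Pool.Agent.H568R2.Prob

/-!
# The second moment: nearly monotone functions are badly correlated with the negated bits

The rows `σ x` (`x ∈ X`) are independent with the law `w`; the bit of `x` is true if `σ x` is not the
zero row `r0`. For every `x` there is a function `s x` with values in `[-1, 1]` which hardly
decreases if a zero row is replaced by a random row.
-/

set_option autoImplicit false
set_option linter.unusedSectionVars false

namespace Pool.Agent.J6H31.AW

open Finset H568R2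

variable {X R : Type} [Fintype X] [DecidableEq X] [Fintype R] [DecidableEq R]

theorem Ex_sub' (w : R → ℝ) (F G : (X → R) → ℝ) :
    Ex w (fun ω => F ω - G ω) = Ex w F - Ex w G := by
  have h : (fun ω : X → R => F ω - G ω) = fun ω => F ω + (-1) * G ω := by
    funext ω
    ring
  rw [h, Ex_add, Ex_smul]
  ring

/-- a factor which depends on one row only -/
theorem Ex_fac {w : R → ℝ} (hw : ∑ a, w a = 1) (y : X) (φ : R → ℝ) (F : (X → R) → ℝ)
    (hF : ∀ σ a, F (Function.update σ y a) = F σ) :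
    Ex w (fun σ => φ (σ y) * F σ) = (∑ a, w a * φ a) * Ex w F := by
  rw [Ex_resample hw _ y, ← Ex_smul]
  congr 1
  funext σ
  rw [Finset.sum_mul]
  refine Finset.sum_congr rfl fun a _ => ?_
  rw [Function.update_self, hF]
  ring

/-- the zero row at `y` -/
theorem Ex_zero {w : R → ℝ} (hw : ∑ a, w a = 1) (r0 : R) (F : (X → R) → ℝ) (y : X) :
    w r0 * Ex w (fun σ => F (Function.update σ y r0)) =
      Ex w (fun σ => (if σ y = r0 then 1 else 0) * F σ) := by
  rw [Ex_resample hw (fun σ => (if σ y = r0 then (1 : ℝ) else 0) * F σ) y, ← Ex_smul]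
  congr 1
  funext σ
  rw [Finset.sum_eq_single r0]
  · rw [Function.update_self, if_pos rfl, one_mul]
  · intro b _ hb
    rw [Function.update_self, if_neg hb, zero_mul, mul_zero]
  · intro h
    exact absurd (Finset.mem_univ _) h

theorem abs_Ex_le {w : R → ℝ} (hw0 : ∀ a, 0 ≤ w a) (hw : ∑ a, w a = 1) {F : (X → R) → ℝ} {c : ℝ}
    (h : ∀ σ, |F σ| ≤ c) : |Ex w F| ≤ c := by
  rw [abs_le]
  constructor
  · have h1 : Ex w (fun _ : X → R => -c) ≤ Ex w F :=
      Ex_mono hw0 fun σ => (abs_le.1 (h σ)).1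
    rwa [Ex_const hw] at h1
  · have h1 : Ex w F ≤ Ex w (fun _ : X → R => c) :=
      Ex_mono hw0 fun σ => (abs_le.1 (h σ)).2
    rwa [Ex_const hw] at h1

/-- **The total influence of a bounded function.** -/
theorem infl {w : R → ℝ} (hw0 : ∀ a, 0 ≤ w a) (hw : ∑ a, w a = 1) {r0 : R} (hq : 1 / 3 ≤ w r0)
    {f : (X → R) → ℝ} (hf : ∀ σ, |f σ| ≤ 1) :
    ∑ y, Ex w (fun σ => f σ - f (Function.update σ y r0)) ≤
      3 * Real.sqrt (Fintype.card X) := by
  have hq1 : w r0 ≤ 1 := by
    rw [← hw]
    exact Finset.single_le_sum (fun a _ => hw0 a) (Finset.mem_univ r0)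
  set N : ℝ := ((Fintype.card X : ℕ) : ℝ) with hN
  set u : R → ℝ := fun r => w r0 - if r = r0 then 1 else 0 with hu
  have hu0 : ∑ a, w a * u a = 0 := by
    simp only [hu, mul_sub, mul_ite, mul_one, mul_zero, Finset.sum_sub_distrib,
      Finset.sum_ite_eq', Finset.mem_univ, if_true]
    rw [← Finset.sum_mul, hw]
    ring
  set T : (X → R) → ℝ := fun σ => ∑ y, u (σ y) with hT
  -- the second moment of `T`
  have hT2 : Ex w (fun σ => T σ ^ 2) ≤ N := by
    have h1 : (fun σ : X → R => T σ ^ 2) = fun σ => ∑ y, ∑ z, u (σ y) * u (σ z) := by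
      funext σ
      rw [hT, sq, Finset.sum_mul_sum]
    rw [h1, Ex_sum]
    have h2 : ∀ y : X, Ex w (fun σ : X → R => ∑ z, u (σ y) * u (σ z)) ≤ 1 := by
      intro y
      rw [Ex_sum, Finset.sum_eq_single y]
      · have h3 : Ex w (fun σ : X → R => u (σ y) * u (σ y)) ≤ Ex w (fun _ : X → R => (1 : ℝ)) := by
          refine Ex_mono hw0 fun σ => ?_
          simp only [hu]
          split_ifs <;> nlinarith
        rwa [Ex_const hw] at h3
      · intro z _ hz
        have h4 := Ex_fac hw y u (fun σ : X → R => u (σ z)) fun σ a => by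
          rw [Function.update_of_ne hz]
        rw [h4, hu0, zero_mul]
      · intro h
        exact absurd (Finset.mem_univ _) h
    refine (Finset.sum_le_sum fun y _ => h2 y).trans ?_
    rw [Finset.sum_const, nsmul_eq_mul, mul_one, Finset.card_univ]
  -- the first moment
  have hT1 : Ex w (fun σ => |T σ|) ≤ Real.sqrt N := by
    have hN0 : 0 ≤ N := by positivity
    rcases eq_or_lt_of_le hN0 with h0 | h0
    · have hX : IsEmpty X := by
        have : Fintype.card X = 0 := by
          rw [hN] at h0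
          exact_mod_cast h0.symm
        exact Fintype.card_eq_zero_iff.1 this
      have : (fun σ : X → R => |T σ|) = fun _ => (0 : ℝ) := by
        funext σ
        simp [hT]
      rw [this, Ex_const hw]
      positivity
    · have hs : 0 < Real.sqrt N := Real.sqrt_pos.2 h0
      have h3 : ∀ σ : X → R, |T σ| ≤ (1 / (2 * Real.sqrt N)) * T σ ^ 2 + Real.sqrt N / 2 := by
        intro σ
        rw [← sub_nonneg]
        have h4 : (1 / (2 * Real.sqrt N)) * T σ ^ 2 + Real.sqrt N / 2 - |T σ| =
            (|T σ| - Real.sqrt N) ^ 2 / (2 * Real.sqrt N) := by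
          rw [← sq_abs (T σ)]
          field_simp
          ring
        rw [h4]
        positivity
      have h5 := Ex_mono (w := w) hw0 h3
      rw [Ex_add, Ex_smul, Ex_const hw] at h5
      refine h5.trans ?_
      have h6 : (1 / (2 * Real.sqrt N)) * Ex w (fun σ => T σ ^ 2) ≤
          (1 / (2 * Real.sqrt N)) * N := mul_le_mul_of_nonneg_left hT2 (by positivity)
      have h7 : (1 / (2 * Real.sqrt N)) * N = Real.sqrt N / 2 := by
        have := Real.mul_self_sqrt hN0
        field_simp
        nlinarith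
      linarith
  -- the influences
  have h8 : ∀ y, w r0 * Ex w (fun σ => f σ - f (Function.update σ y r0)) =
      Ex w (fun σ => u (σ y) * f σ) := by
    intro y
    rw [Ex_sub', mul_sub, Ex_zero hw r0 f y, ← Ex_smul, ← Ex_sub']
    congr 1
    funext σ
    simp only [hu]
    ring
  have h9 : w r0 * ∑ y, Ex w (fun σ => f σ - f (Function.update σ y r0)) ≤ Real.sqrt N := by
    rw [Finset.mul_sum, Finset.sum_congr rfl fun y _ => h8 y, ← Ex_sum]
    refine le_trans (Ex_mono hw0 fun σ => ?_) hT1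
    rw [← Finset.sum_mul]
    refine (le_abs_self _).trans ?_
    rw [abs_mul]
    calc |∑ y, u (σ y)| * |f σ| ≤ |∑ y, u (σ y)| * 1 :=
          mul_le_mul_of_nonneg_left (hf σ) (abs_nonneg _)
      _ = |T σ| := by rw [mul_one]
  have hsq : 0 ≤ Real.sqrt N := Real.sqrt_nonneg _
  set S := ∑ y, Ex w (fun σ => f σ - f (Function.update σ y r0)) with hS
  by_contra hcon
  push Not at hcon
  have h10 : 0 < S := lt_of_le_of_lt (by positivity) hcon
  have h11 : 1 / 3 * S ≤ w r0 * S := mul_le_mul_of_nonneg_right hq h10.le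
  linarith

/-- the sign of the row -/
noncomputable def hh (r0 r : R) : ℝ := if r = r0 then 1 / 2 else -1 / 2

theorem abs_hh (r0 r : R) : |hh r0 r| = 1 / 2 := by
  unfold hh
  split_ifs
  · rw [abs_of_nonneg (by norm_num)]
  · rw [abs_of_nonpos (by norm_num)]
    norm_num

theorem hh_mean {w : R → ℝ} (hw : ∑ a, w a = 1) (r0 : R) : ∑ a, w a * hh r0 a = w r0 - 1 / 2 := by
  have h1 : ∀ a, w a * hh r0 a = (if a = r0 then w a else 0) - w a * (1 / 2) := by
    intro a
    unfold hh
    split_ifs <;> ring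
  rw [Finset.sum_congr rfl fun a _ => h1 a, Finset.sum_sub_distrib, ← Finset.sum_mul, hw]
  simp

/-- a factor `hh` gives almost nothing -/
theorem Ex_hh {w : R → ℝ} (hw0 : ∀ a, 0 ≤ w a) (hw : ∑ a, w a = 1) {r0 : R} {p : ℝ}
    (hp : |w r0 - 1 / 2| ≤ p) (y : X) {F : (X → R) → ℝ}
    (hF : ∀ σ a, F (Function.update σ y a) = F σ) {c : ℝ} (hc : ∀ σ, |F σ| ≤ c) :
    Ex w (fun σ => hh r0 (σ y) * F σ) ≤ p * c := by
  rw [Ex_fac hw y (hh r0) F hF, hh_mean hw]
  refine (le_abs_self _).trans ?_
  rw [abs_mul]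
  exact mul_le_mul hp (abs_Ex_le hw0 hw hc) (abs_nonneg _) ((abs_nonneg _).trans hp)

/-- **The covariance of two inputs.** -/
theorem cov {w : R → ℝ} (hw0 : ∀ a, 0 ≤ w a) (hw : ∑ a, w a = 1) {r0 : R} {p : ℝ}
    (hp : |w r0 - 1 / 2| ≤ p) {x y : X} (hxy : x ≠ y) {f g : (X → R) → ℝ}
    (hf : ∀ σ a, f (Function.update σ x a) = f σ) (hg : ∀ σ a, g (Function.update σ y a) = g σ)
    (hf1 : ∀ σ, |f σ| ≤ 1) (hg1 : ∀ σ, |g σ| ≤ 1) :
    Ex w (fun σ => hh r0 (σ x) * hh r0 (σ y) * (f σ * g σ)) ≤
      3 * p + 1 / 2 * Ex w (fun σ => |f σ - f (Function.update σ y r0)|) := by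
  have hp0 : 0 ≤ p := (abs_nonneg _).trans hp
  have hyx : y ≠ x := fun h => hxy h.symm
  -- four terms
  have e : (fun σ : X → R => hh r0 (σ x) * hh r0 (σ y) * (f σ * g σ)) = fun σ =>
      hh r0 (σ x) * (hh r0 (σ y) * (f (Function.update σ y r0) * g (Function.update σ x r0))) +
      (hh r0 (σ y) * (hh r0 (σ x) *
        (f (Function.update σ y r0) * (g σ - g (Function.update σ x r0)))) +
      (hh r0 (σ x) * (hh r0 (σ y) *
        ((f σ - f (Function.update σ y r0)) * g (Function.update σ x r0))) +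
      (hh r0 (σ x) * hh r0 (σ y)) * ((f σ - f (Function.update σ y r0)) *
        (g σ - g (Function.update σ x r0))))) := by
    funext σ
    ring
  have hb : ∀ a b c : ℝ, |a| = 1 / 2 → |b| ≤ 1 → |c| ≤ 2 → |a * (b * c)| ≤ 1 := by
    intro a b c ha hb hc
    rw [abs_mul, abs_mul, ha]
    have := mul_le_mul hb hc (abs_nonneg _) zero_le_one
    linarith
  have hd : ∀ (h : (X → R) → ℝ) (σ τ : X → R), (∀ σ, |h σ| ≤ 1) → |h σ - h τ| ≤ 2 := by
    intro h σ τ hh1
    have h1 := hh1 σ
    have h2 := hh1 τ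
    rw [abs_le] at h1 h2 ⊢
    constructor <;> linarith
  have t1 : Ex w (fun σ => hh r0 (σ x) * (hh r0 (σ y) *
      (f (Function.update σ y r0) * g (Function.update σ x r0)))) ≤ p * 1 := by
    refine Ex_hh hw0 hw hp x (fun σ a => ?_) (fun σ => ?_)
    · rw [Function.update_of_ne hyx, Function.update_comm hxy, hf, Function.update_idem]
    · exact hb _ _ _ (abs_hh _ _) (hf1 _) ((hg1 _).trans (by norm_num))
  have t2 : Ex w (fun σ => hh r0 (σ y) * (hh r0 (σ x) *
      (f (Function.update σ y r0) * (g σ - g (Function.update σ x r0))))) ≤ p * 1 := by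
    refine Ex_hh hw0 hw hp y (fun σ a => ?_) (fun σ => ?_)
    · rw [Function.update_of_ne hxy, Function.update_comm hyx, Function.update_idem, hg, hg]
    · exact hb _ _ _ (abs_hh _ _) (hf1 _) (hd g _ _ hg1)
  have t3 : Ex w (fun σ => hh r0 (σ x) * (hh r0 (σ y) *
      ((f σ - f (Function.update σ y r0)) * g (Function.update σ x r0)))) ≤ p * 1 := by
    refine Ex_hh hw0 hw hp x (fun σ a => ?_) (fun σ => ?_)
    · rw [Function.update_of_ne hyx, Function.update_comm hxy, hf, hf, Function.update_idem]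
    · rw [mul_comm (f σ - f (Function.update σ y r0))]
      exact hb _ _ _ (abs_hh _ _) (hg1 _) (hd f _ _ hf1)
  have t4 : Ex w (fun σ => (hh r0 (σ x) * hh r0 (σ y)) * ((f σ - f (Function.update σ y r0)) *
      (g σ - g (Function.update σ x r0)))) ≤
      1 / 2 * Ex w (fun σ => |f σ - f (Function.update σ y r0)|) := by
    rw [← Ex_smul]
    refine Ex_mono hw0 fun σ => ?_
    refine (le_abs_self _).trans ?_
    rw [abs_mul, abs_mul, abs_mul, abs_hh, abs_hh]
    have h1 := hd g σ (Function.update σ x r0) hg1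
    have h2 := abs_nonneg (f σ - f (Function.update σ y r0))
    have h3 := mul_le_mul_of_nonneg_left h1 h2
    linarith
  rw [e, Ex_add, Ex_add, Ex_add]
  linarith

/-- the loss if the zero row at `y` is replaced by the row of `σ` -/
noncomputable def viol (r0 : R) (s : (X → R) → ℝ) (y : X) (σ : X → R) : ℝ :=
  max 0 (s (Function.update σ y r0) - s σ)

/-- the sum of the correlations, without the rows of the inputs themselves -/
noncomputable def W' (r0 : R) (s : X → (X → R) → ℝ) (σ : X → R) : ℝ :=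
  ∑ x, hh r0 (σ x) * s x (Function.update σ x r0)

theorem second {w : R → ℝ} (hw0 : ∀ a, 0 ≤ w a) (hw : ∑ a, w a = 1) {r0 : R} {p κ : ℝ}
    (hp : |w r0 - 1 / 2| ≤ p) (hq : 1 / 3 ≤ w r0) {s : X → (X → R) → ℝ}
    (hs : ∀ x σ, |s x σ| ≤ 1) (hv : ∀ x y, Ex w (viol r0 (s x) y) ≤ κ) (hκ : 0 ≤ κ) :
    Ex w (fun σ => W' r0 s σ ^ 2) ≤ Fintype.card X / 4 + 3 * p * (Fintype.card X) ^ 2 +
      3 / 2 * (Fintype.card X * Real.sqrt (Fintype.card X)) + 3 * κ * (Fintype.card X) ^ 2 := by
  have hp0 : 0 ≤ p := (abs_nonneg _).trans hp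
  set N : ℝ := ((Fintype.card X : ℕ) : ℝ) with hN
  set f : X → (X → R) → ℝ := fun x σ => s x (Function.update σ x r0) with hfdef
  have hfi : ∀ x σ a, f x (Function.update σ x a) = f x σ := by
    intro x σ a
    simp only [hfdef, Function.update_idem]
  have hf1 : ∀ x σ, |f x σ| ≤ 1 := fun x σ => hs x _
  have h1 : (fun σ : X → R => W' r0 s σ ^ 2) = fun σ => ∑ x, ∑ y,
      hh r0 (σ x) * hh r0 (σ y) * (f x σ * f y σ) := by
    funext σ
    unfold W'
    rw [sq, Finset.sum_mul_sum]
    refine Finset.sum_congr rfl fun x _ => Finset.sum_congr rfl fun y _ => ?_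
    simp only [hfdef]
    ring
  -- the absolute value of the derivative
  have h2 : ∀ x y, Ex w (fun σ => |f x σ - f x (Function.update σ y r0)|) ≤
      Ex w (fun σ => f x σ - f x (Function.update σ y r0)) + 6 * κ := by
    intro x y
    have h3 : (fun σ : X → R => |f x σ - f x (Function.update σ y r0)|) = fun σ =>
        (f x σ - f x (Function.update σ y r0)) +
          2 * max 0 (f x (Function.update σ y r0) - f x σ) := by
      funext σ
      rcases le_total (f x (Function.update σ y r0)) (f x σ) with h | h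
      · rw [abs_of_nonneg (by linarith), max_eq_left (by linarith)]
        ring
      · rw [abs_of_nonpos (by linarith), max_eq_right (by linarith)]
        ring
    rw [h3, Ex_add, Ex_smul]
    have h4 : Ex w (fun σ => max 0 (f x (Function.update σ y r0) - f x σ)) ≤ 3 * κ := by
      by_cases hxy : y = x
      · subst hxy
        have : (fun σ : X → R => max 0 (f y (Function.update σ y r0) - f y σ)) =
            fun _ => (0 : ℝ) := by
          funext σ
          rw [hfi, sub_self, max_self]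
        rw [this, Ex_const hw]
        positivity
      · have h5 : (fun σ : X → R => max 0 (f x (Function.update σ y r0) - f x σ)) =
            fun σ => viol r0 (s x) y (Function.update σ x r0) := by
          funext σ
          unfold viol
          simp only [hfdef]
          rw [Function.update_comm hxy]
        rw [h5]
        have h6 := Ex_zero hw r0 (viol r0 (s x) y) x
        have h7 : Ex w (fun σ => (if σ x = r0 then 1 else 0) * viol r0 (s x) y σ) ≤ κ := by
          refine le_trans (Ex_mono hw0 fun σ => ?_) (hv x y)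
          have h8 : 0 ≤ viol r0 (s x) y σ := le_max_left _ _
          split_ifs <;> linarith
        rw [← h6] at h7
        have h9 : 0 ≤ Ex w (fun σ => viol r0 (s x) y (Function.update σ x r0)) :=
          Ex_nonneg hw0 fun σ => le_max_left _ _
        nlinarith
    linarith
  have h3 : ∀ x y, Ex w (fun σ => hh r0 (σ x) * hh r0 (σ y) * (f x σ * f y σ)) ≤
      (if x = y then 1 / 4 else 0) + (3 * p + 3 * κ) +
        1 / 2 * Ex w (fun σ => f x σ - f x (Function.update σ y r0)) := by
    intro x y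
    by_cases hxy : x = y
    · subst hxy
      rw [if_pos rfl]
      have h4 : Ex w (fun σ => f x σ - f x (Function.update σ x r0)) = 0 := by
        have : (fun σ : X → R => f x σ - f x (Function.update σ x r0)) = fun _ => (0 : ℝ) := by
          funext σ
          rw [hfi, sub_self]
        rw [this, Ex_const hw]
      rw [h4]
      have h5 : Ex w (fun σ => hh r0 (σ x) * hh r0 (σ x) * (f x σ * f x σ)) ≤
          Ex w (fun _ : X → R => (1 / 4 : ℝ)) := by
        refine Ex_mono hw0 fun σ => ?_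
        refine (le_abs_self _).trans ?_
        rw [abs_mul, abs_mul, abs_mul, abs_hh]
        have := hf1 x σ
        have h6 := mul_le_mul this this (abs_nonneg _) zero_le_one
        linarith
      rw [Ex_const hw] at h5
      linarith
    · rw [if_neg hxy]
      have h4 := cov hw0 hw hp hxy (hfi x) (hfi y) (hf1 x) (hf1 y)
      have h5 := h2 x y
      linarith
  have h4 : ∀ x, ∑ y, Ex w (fun σ => hh r0 (σ x) * hh r0 (σ y) * (f x σ * f y σ)) ≤
      1 / 4 + N * (3 * p + 3 * κ) + 3 / 2 * Real.sqrt N := by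
    intro x
    refine (Finset.sum_le_sum fun y _ => h3 x y).trans ?_
    rw [Finset.sum_add_distrib, Finset.sum_add_distrib, Finset.sum_ite_eq, if_pos (Finset.mem_univ _),
      Finset.sum_const, nsmul_eq_mul, Finset.card_univ, ← Finset.mul_sum]
    have := infl hw0 hw hq (hf1 x)
    linarith
  rw [h1, Ex_sum]
  simp only [Ex_sum]
  refine (Finset.sum_le_sum fun x _ => h4 x).trans ?_
  rw [Finset.sum_const, nsmul_eq_mul, Finset.card_univ, ← hN]
  apply le_of_eq
  ring

/-- the number of the inputs for which `s x` is exactly the negated bit -/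
theorem correct_le {r0 : R} {s : X → (X → R) → ℝ} (hs : ∀ x σ, |s x σ| ≤ 1) (σ : X → R)
    (T : Finset X) (hT : ∀ x ∈ T, hh r0 (σ x) * s x σ = 1 / 2) :
    (T.card : ℝ) ≤ Fintype.card X / 2 + W' r0 s σ + 1 / 2 * ∑ x, viol r0 (s x) x σ := by
  have h1 : ∀ x, hh r0 (σ x) * s x σ ≤ hh r0 (σ x) * s x (Function.update σ x r0) +
      1 / 2 * viol r0 (s x) x σ := by
    intro x
    unfold viol
    by_cases h : σ x = r0
    · have h2 : Function.update σ x r0 = σ := by
        rw [← h, Function.update_eq_self]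
      rw [h2, sub_self, max_self]
      linarith
    · have h2 : hh r0 (σ x) = -1 / 2 := if_neg h
      rw [h2]
      have := le_max_right 0 (s x (Function.update σ x r0) - s x σ)
      linarith
  have h2 : ∀ x, (if x ∈ T then (1 : ℝ) else 0) ≤ 1 / 2 + hh r0 (σ x) * s x σ := by
    intro x
    split_ifs with h
    · rw [hT x h]
      norm_num
    · have h3 : |hh r0 (σ x) * s x σ| ≤ 1 / 2 := by
        rw [abs_mul, abs_hh]
        have := hs x σ
        linarith
      have := (abs_le.1 h3).1
      linarith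
  have h3 : (T.card : ℝ) = ∑ x, if x ∈ T then (1 : ℝ) else 0 := by
    rw [Finset.sum_ite_mem, Finset.univ_inter, Finset.sum_const, nsmul_eq_mul, mul_one]
  rw [h3]
  refine (Finset.sum_le_sum fun x _ => (h2 x).trans (add_le_add_right (h1 x) _)).trans ?_
  unfold W'
  rw [Finset.sum_add_distrib, Finset.sum_add_distrib, Finset.sum_const, nsmul_eq_mul,
    Finset.card_univ, ← Finset.mul_sum]
  apply le_of_eq
  ring

/-- **Chebyshev's inequality.** -/
theorem cheb {w : R → ℝ} (hw0 : ∀ a, 0 ≤ w a) (hw : ∑ a, w a = 1) {r0 : R} {p κ D : ℝ}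
    (hp : |w r0 - 1 / 2| ≤ p) (hq : 1 / 3 ≤ w r0) {s : X → (X → R) → ℝ}
    (hs : ∀ x σ, |s x σ| ≤ 1) (hv : ∀ x y, Ex w (viol r0 (s x) y) ≤ κ) (hκ : 0 ≤ κ)
    (hX : 1 ≤ (Fintype.card X : ℝ)) (hsmall : (Fintype.card X : ℝ) ^ 2 * (6 * p + 7 * κ) ≤ 1)
    (hD : 0 < D) (T : (X → R) → Finset X)
    (hT : ∀ σ, ∀ x ∈ T σ, hh r0 (σ x) * s x σ = 1 / 2) :
    Ex w (fun σ => if (Fintype.card X : ℝ) / 2 + D < (T σ).card then (1 : ℝ) else 0) ≤
      5 * (Fintype.card X * Real.sqrt (Fintype.card X)) / D ^ 2 := by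
  set N : ℝ := ((Fintype.card X : ℕ) : ℝ) with hN
  set U : (X → R) → ℝ := fun σ => 1 / 2 * ∑ x, viol r0 (s x) x σ with hU
  have hU0 : ∀ σ, 0 ≤ U σ := fun σ => by
    have : 0 ≤ ∑ x, viol r0 (s x) x σ := Finset.sum_nonneg fun x _ => le_max_left _ _
    simp only [hU]
    linarith
  have hUN : ∀ σ, U σ ≤ N := by
    intro σ
    have h1 : ∑ x, viol r0 (s x) x σ ≤ ∑ _x : X, (2 : ℝ) := by
      refine Finset.sum_le_sum fun x _ => max_le (by norm_num) ?_
      have h2 := (abs_le.1 (hs x (Function.update σ x r0))).2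
      have h3 := (abs_le.1 (hs x σ)).1
      linarith
    rw [Finset.sum_const, nsmul_eq_mul, Finset.card_univ] at h1
    simp only [hU]
    linarith
  have hUE : Ex w U ≤ 1 / 2 * (N * κ) := by
    simp only [hU]
    rw [Ex_smul, Ex_sum]
    refine mul_le_mul_of_nonneg_left ?_ (by norm_num)
    refine (Finset.sum_le_sum fun x _ => hv x x).trans ?_
    rw [Finset.sum_const, nsmul_eq_mul, Finset.card_univ]
  have h1 : ∀ σ, (if N / 2 + D < ((T σ).card : ℝ) then (1 : ℝ) else 0) ≤
      (1 / D ^ 2) * (2 * W' r0 s σ ^ 2 + 2 * (N * U σ)) := by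
    intro σ
    have h2 : 0 ≤ 2 * W' r0 s σ ^ 2 + 2 * (N * U σ) := by
      have := mul_nonneg (show (0 : ℝ) ≤ N by linarith) (hU0 σ)
      positivity
    split_ifs with h
    · have h3 := correct_le hs σ (T σ) (hT σ)
      have h4 : D < W' r0 s σ + U σ := by
        simp only [hU]
        linarith
      have h5 : D ^ 2 ≤ (W' r0 s σ + U σ) ^ 2 := pow_le_pow_left₀ hD.le h4.le 2
      have h6 : (W' r0 s σ + U σ) ^ 2 ≤ 2 * W' r0 s σ ^ 2 + 2 * U σ ^ 2 := by
        have := sq_nonneg (W' r0 s σ - U σ)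
        nlinarith
      have h7 : U σ ^ 2 ≤ N * U σ := by
        rw [sq]
        exact mul_le_mul_of_nonneg_right (hUN σ) (hU0 σ)
      rw [one_div, ← div_eq_inv_mul, one_le_div (by positivity)]
      linarith
    · positivity
  refine (Ex_mono hw0 h1).trans ?_
  rw [Ex_smul, Ex_add, Ex_smul, Ex_smul, Ex_smul]
  have h2 := second hw0 hw hp hq hs hv hκ
  rw [← hN] at h2
  have hN0 : (0 : ℝ) ≤ N := by linarith
  have h3 : N ≤ N * Real.sqrt N := by
    have : 1 ≤ Real.sqrt N := by
      rw [Real.one_le_sqrt]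
      exact hX
    nlinarith
  have h4 : 2 * Ex w (fun σ => W' r0 s σ ^ 2) + 2 * (N * Ex w U) ≤ 5 * (N * Real.sqrt N) := by
    have h5 : N * Ex w U ≤ N * (1 / 2 * (N * κ)) := mul_le_mul_of_nonneg_left hUE hN0
    have h6 : N ^ 2 * (6 * p + 7 * κ) = 6 * p * N ^ 2 + 7 * κ * N ^ 2 := by ring
    rw [h6] at hsmall
    have h7 : N * (1 / 2 * (N * κ)) = 1 / 2 * (κ * N ^ 2) := by ring
    rw [h7] at h5
    linarith
  calc 1 / D ^ 2 * (2 * Ex w (fun σ => W' r0 s σ ^ 2) + 2 * (N * Ex w U))
      ≤ 1 / D ^ 2 * (5 * (N * Real.sqrt N)) := mul_le_mul_of_nonneg_left h4 (by positivity)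
    _ = 5 * (N * Real.sqrt N) / D ^ 2 := by ring

end Pool.Agent.J6H31.AW
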