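import Pool.Agent.J6H31.AW.Run
import Pool.Agent.J6H31.AW.Game

/-!
# The probability that a verifier is correct for the complement of the language on many strings
-/

set_option autoImplicit false

namespace Pool.Agent.J6H31.AW

open Pool.Agent.NPC Finset H568R2 Pool.Agent.H676 Pool.Agent.H620R2.Gauge Pool.Agent.H591R3.PHG
open Pool.Agent.J6H7.RO MeasureTheory Filter LangTrAux
open Pool.Agent.J6H49.PHC (mix mix_pre mix_off)
open Pool.Agent.J6H49.BI (LateP out_mixP prob_le_of_ovw2 fair MO_id)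
open Pool.Agent.J6H49.IP (talk Accepts il)
open Pool.Agent.J6H49.AM (pr)
open Pool.Agent.J6H31.AV

/-- The verifier `V` is correct for the complement of the language `L` at the input `x`, with the
advice `w`, `ℓ` rounds, private random strings of length `ℓ` and answers of length at most `ℓ`: if
`x` is not in `L`, then some prover makes it accept with probability at least `2 / 3`; if `x` is in
`L`, then every prover makes it accept with probability at most `1 / 3`. -/
def CorrectAt (V : List Bool → List Bool) (ℓ : ℕ) (w : List Bool) (L : Set (List Bool))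
    (x : List Bool) : Prop :=
  (x ∉ L → ∃ P : List (List Bool) → List Bool,
    2 / 3 ≤ pr ℓ fun r => Accepts V P ℓ (pairBits x w) r) ∧
  (x ∈ L → ∀ P : List (List Bool) → List Bool,
    (pr ℓ fun r => Accepts V P ℓ (pairBits x w) r) ≤ 1 / 3)

/-- the number of the strings of length `n` at which the verifier is correct -/
noncomputable def good (V : List Bool → List Bool) (ℓ n : ℕ) (w : List Bool)
    (L : Set (List Bool)) : ℕ :=
  Set.ncard {x : List Bool | x.length = n ∧ CorrectAt V ℓ w L x}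

open Classical in
theorem ncard_len (n : ℕ) (P : List Bool → Prop) :
    Set.ncard {x : List Bool | x.length = n ∧ P x} =
      (univ.filter fun x : Fin (2 ^ n) => P (bitsOf n x.val)).card := by
  have h1 : {x : List Bool | x.length = n ∧ P x} =
      (fun x : Fin (2 ^ n) => bitsOf n x.val) '' ((Finset.univ.filter fun x : Fin (2 ^ n) =>
        P (bitsOf n x.val) : Finset (Fin (2 ^ n))) : Set (Fin (2 ^ n))) := by
    ext x
    simp only [Set.mem_ofPred_eq, Set.mem_image, Finset.coe_filter, Finset.mem_univ, true_and]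
    constructor
    · rintro ⟨rfl, h⟩
      obtain ⟨j, hj, hjx⟩ := exists_bitsOf x
      refine ⟨⟨j, hj⟩, ?_, hjx⟩
      dsimp only
      rw [hjx]
      exact h
    · rintro ⟨j, h, rfl⟩
      exact ⟨length_bitsOf _ _, h⟩
  rw [h1, Set.ncard_image_of_injective _ (fun x y h =>
    Fin.ext (bitsOf_inj x.isLt y.isLt h)), Set.ncard_coe_finset]

/-- the excess -/
noncomputable def ex (n a : ℕ) : ℝ :=
  (n + 1) ^ 2 * Real.sqrt (2 ^ a * (2 ^ n * Real.sqrt (2 ^ n)))

theorem ex_pos (n a : ℕ) : 0 < ex n a := by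
  unfold ex
  positivity

/-- the verifier is correct for the complement on many strings of length `n`, with the advice `w` -/
def Ev (μ : ℕ → ℕ) (O : Oracle → Oracle) (M : Alg) (c n : ℕ) (w : List Bool) : Set Oracle :=
  {A | (2 : ℝ) ^ n / 2 + ex n w.length <
    good (outV M (O A)) (2 ^ (c * (n + 1))) n w (hardA μ A)}

theorem meas_correct (μ : ℕ → ℕ) {O : Oracle → Oracle} (hO : MO O) (M : Alg) (ℓ : ℕ)
    (w x : List Bool) : MeasurableSet {A | CorrectAt (outV M (O A)) ℓ w (hardA μ A) x} := by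
  have hfin : {y : List Bool | y.length ≤ il (pairBits x w).length ℓ}.Finite :=
    List.finite_length_le Bool _
  set F := hfin.toFinset with hF
  have hcong : ∀ (V V' : List Bool → List Bool), (∀ y ∈ F, V y = V' y) →
      ∀ P, (pr ℓ fun r => Accepts V P ℓ (pairBits x w) r) =
        pr ℓ fun r => Accepts V' P ℓ (pairBits x w) r := by
    intro V V' h P
    classical
    unfold pr
    refine congrArg (fun k : ℕ => (k : ℝ) / 2 ^ ℓ) (congrArg Finset.card
      (Finset.filter_congr fun v _ => ?_))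
    exact accepts_congr (V := V) (V' := V') P (ℓ := ℓ) (x := pairBits x w) rfl
      (w := List.ofFn v) (List.length_ofFn) fun y hy => h y (by
        rw [hF, Set.Finite.mem_toFinset]
        exact hy)
  have h1 : MeasurableSet {A | ∃ P : List (List Bool) → List Bool,
      2 / 3 ≤ pr ℓ fun r => Accepts (outV M (O A)) P ℓ (pairBits x w) r} := by
    refine meas_fin (V := fun A => outV M (O A)) (meas_val hO M) F
      (fun V => ∃ P : List (List Bool) → List Bool,
        2 / 3 ≤ pr ℓ fun r => Accepts V P ℓ (pairBits x w) r) fun V V' h => ?_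
    refine exists_congr fun P => ?_
    rw [hcong V V' h P]
  have h2 : MeasurableSet {A | ∀ P : List (List Bool) → List Bool,
      (pr ℓ fun r => Accepts (outV M (O A)) P ℓ (pairBits x w) r) ≤ 1 / 3} := by
    refine meas_fin (V := fun A => outV M (O A)) (meas_val hO M) F
      (fun V => ∀ P : List (List Bool) → List Bool,
        (pr ℓ fun r => Accepts V P ℓ (pairBits x w) r) ≤ 1 / 3) fun V V' h => ?_
    refine forall_congr' fun P => ?_
    rw [hcong V V' h P]
  have h3 := meas_hard μ x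
  have h4 : {A | CorrectAt (outV M (O A)) ℓ w (hardA μ A) x} =
      ({A | x ∈ hardA μ A} ∪ {A | ∃ P : List (List Bool) → List Bool,
        2 / 3 ≤ pr ℓ fun r => Accepts (outV M (O A)) P ℓ (pairBits x w) r}) ∩
      ({A | x ∈ hardA μ A}ᶜ ∪ {A | ∀ P : List (List Bool) → List Bool,
        (pr ℓ fun r => Accepts (outV M (O A)) P ℓ (pairBits x w) r) ≤ 1 / 3}) := by
    ext A
    simp only [Set.mem_ofPred_eq, Set.mem_inter_iff, Set.mem_union, Set.mem_compl_iff, CorrectAt]
    tauto
  rw [h4]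
  exact (h3.union h1).inter (h3.compl.union h2)

theorem meas_ev (μ : ℕ → ℕ) {O : Oracle → Oracle} (hO : MO O) (M : Alg) (c n : ℕ)
    (w : List Bool) : MeasurableSet (Ev μ O M c n w) := by
  classical
  have h1 : Measurable (fun A : Oracle => ∑ x : Fin (2 ^ n),
      if CorrectAt (outV M (O A)) (2 ^ (c * (n + 1))) w (hardA μ A) (bitsOf n x.val)
        then (1 : ℝ) else 0) :=
    Finset.measurable_sum _ fun x _ => Measurable.ite (meas_correct μ hO M _ w _)
      measurable_const measurable_const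
  have h2 : Ev μ O M c n w = {A | (2 : ℝ) ^ n / 2 + ex n w.length < ∑ x : Fin (2 ^ n),
      if CorrectAt (outV M (O A)) (2 ^ (c * (n + 1))) w (hardA μ A) (bitsOf n x.val)
        then (1 : ℝ) else 0} := by
    ext A
    unfold Ev good
    rw [Set.mem_ofPred_eq, Set.mem_ofPred_eq, ncard_len, Finset.sum_ite, Finset.sum_const_zero,
      add_zero, Finset.sum_const, nsmul_eq_mul, mul_one]
  rw [h2]
  exact measurableSet_lt measurable_const h1

/-- a polynomial bound for the lengths of the inputs of the verifier -/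
noncomputable def plQ (c : ℕ) : Polynomial ℕ := 10 * Polynomial.X + 5 * Polynomial.X ^ (2 * c)

theorem il_le {c n a : ℕ} (ha : a ≤ 3 * n + 1) :
    il a (2 ^ (c * (n + 1))) ≤ (plQ c).eval (2 ^ (n + 1)) := by
  unfold il plQ
  simp only [Polynomial.eval_add, Polynomial.eval_mul, Polynomial.eval_X, Polynomial.eval_pow,
    Polynomial.eval_ofNat]
  have h1 : n + 1 < 2 ^ (n + 1) := Nat.lt_two_pow_self
  have h2 : (2 ^ (n + 1)) ^ (2 * c) = 2 ^ (c * (n + 1)) * 2 ^ (c * (n + 1)) := by
    rw [← pow_mul, ← pow_add]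
    congr 1
    ring
  have h3 : 1 ≤ 2 ^ (c * (n + 1)) := Nat.one_le_two_pow
  rw [h2]
  set l := 2 ^ (c * (n + 1)) with hl
  have h4 : l ≤ l * l := Nat.le_mul_of_pos_left _ h3
  have h5 : l * (2 * l + 1) = 2 * (l * l) + l := by ring
  rw [h5]
  omega

/-- polynomials of `2 ^ n` -/
theorem poly_le (Q : Polynomial ℕ) : ∃ c' : ℕ, ∀ n ≥ 1, Q.eval (2 ^ (n + 1)) ≤ 2 ^ (c' * n) := by
  refine ⟨Q.eval 1 + 2 * Q.natDegree, fun n hn => ?_⟩
  have h3 : Q.eval (2 ^ (n + 1)) ≤ Q.eval 1 * (2 ^ (n + 1)) ^ Q.natDegree :=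
    eval_le_pow Q Nat.one_le_two_pow
  have h4 : Q.eval 1 ≤ 2 ^ Q.eval 1 := Nat.lt_two_pow_self.le
  calc Q.eval (2 ^ (n + 1)) ≤ Q.eval 1 * (2 ^ (n + 1)) ^ Q.natDegree := h3
    _ ≤ 2 ^ Q.eval 1 * (2 ^ (n + 1)) ^ Q.natDegree := Nat.mul_le_mul_right _ h4
    _ = 2 ^ (Q.eval 1 + (n + 1) * Q.natDegree) := by rw [← pow_mul, ← pow_add]
    _ ≤ 2 ^ ((Q.eval 1 + 2 * Q.natDegree) * n) := by
      apply Nat.pow_le_pow_right (by norm_num)
      obtain ⟨a, rfl⟩ : ∃ a, n = a + 1 := ⟨n - 1, by omega⟩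
      nlinarith

open Classical in
/-- **The bound for one length and one advice string.** -/
theorem corr {μ : ℕ → ℕ} {pre : List Bool} {O : Oracle → Oracle}
    (hO : LateP pre O) (M : Alg) (c : ℕ) :
    ∃ C : ℕ, ∀ n ≥ C, ∀ w : List Bool, w.length ≤ n → C * n ≤ μ n →
      prob (fun _ => fair) (Ev μ O M c n w) ≤ 5 / ((n + 1) ^ 4 * 2 ^ w.length) := by
  have htend : Tendsto (fun ν : ℕ => 2 ^ (ν + 1)) atTop atTop :=
    (tendsto_pow_atTop_atTop_of_one_lt (show 1 < 2 by norm_num)).comp (tendsto_add_atTop_nat 1)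
  obtain ⟨n₀, hn₀⟩ := eventually_atTop.1 (htend.eventually (out_mixP hO M (plQ c)))
  obtain ⟨c', hc'⟩ := poly_le ((Polynomial.X ^ c + 1) * M.p.comp (plQ c))
  refine ⟨n₀ + c' + 8, fun n hn w hw hμ => ?_⟩
  have h1 := hn₀ n (by omega)
  have hn1 : 1 ≤ n := by omega
  have hr := hc' n hn1
  have hμ1 : 2 * n + c' * n + 6 ≤ μ n := by
    have h2 : (n₀ + c' + 8) * n = n₀ * n + c' * n + 8 * n := by ring
    have h3 : 0 ≤ n₀ * n := Nat.zero_le _
    omega
  have hmS := meas_ev μ hO.meas M c n w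
  have key := prob_le_of_ovw2 (q := fair) (pos_inj μ n) hmS hmS (κ := 0)
    (ε := 5 / ((n + 1) ^ 4 * 2 ^ w.length)) fun A => ?_
  · linarith
  rw [zero_mul, zero_add]
  -- the changed oracles agree with `A` below `2 ^ (n + 1)`
  have hoff : ∀ (ω : (Fin (2 ^ n) × Fin (KK (μ n))) × Fin (μ n) → Bool)
      (x : List Bool), x.length < 2 ^ (n + 1) → ovw (pos μ n) ω A x = A x := by
    intro ω x hx
    exact ovw_off _ _ fun i hi => by
      have := pos_len μ n i
      rw [hi] at this
      omega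
  set ℓ := 2 ^ (c * (n + 1)) with hℓ
  have hxlen : ∀ x : Fin (2 ^ n), (pairBits (bitsOf n x.val) w).length ≤ 3 * n + 1 := by
    intro x
    rw [Pool.Agent.H620R2.Gauge.length_pairBits, length_bitsOf]
    omega
  -- the number of the questions
  set s := 2 ^ (c' * n) with hs
  have hs' : ∀ x : Fin (2 ^ n), (ℓ + 1) * M.p.eval (il (pairBits (bitsOf n x.val) w).length ℓ) ≤
      s := by
    intro x
    have h2 : M.p.eval (il (pairBits (bitsOf n x.val) w).length ℓ) ≤
        M.p.eval ((plQ c).eval (2 ^ (n + 1))) := eval_mono _ (il_le (hxlen x))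
    have h3 : ((Polynomial.X ^ c + 1) * M.p.comp (plQ c)).eval (2 ^ (n + 1)) =
        (ℓ + 1) * M.p.eval ((plQ c).eval (2 ^ (n + 1))) := by
      rw [Polynomial.eval_mul, Polynomial.eval_comp, Polynomial.eval_add, Polynomial.eval_pow,
        Polynomial.eval_X, Polynomial.eval_one, hℓ, ← pow_mul, mul_comm (n + 1) c]
    rw [h3] at hr
    exact (Nat.mul_le_mul_left _ h2).trans hr
  -- the game
  set acc : Fin (2 ^ n) → ((Fin (2 ^ n) × Fin (KK (μ n))) × Fin (μ n) → Bool) →
      (List (List Bool) → List Bool) → (Fin ℓ → Bool) → Prop := fun x ω P r =>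
      Accepts (outV M (mix pre O A (ovw (pos μ n) ω A))) P ℓ (pairBits (bitsOf n x.val) w)
        (List.ofFn r) with hacc
  have hcard : (Fintype.card (Fin (2 ^ n)) : ℝ) = 2 ^ n := by
    rw [Fintype.card_fin]
    push_cast
    rfl
  have hsmall : (Fintype.card (Fin (2 ^ n)) : ℝ) ^ 2 * ((6 + 42 * (s : ℝ)) * (1 / 2) ^ μ n) ≤
      1 := by
    rw [hcard]
    obtain ⟨d, hd⟩ := Nat.exists_eq_add_of_le hμ1
    have h2 : (s : ℝ) = 2 ^ (c' * n) := by rw [hs]; push_cast; rfl
    have h3 : (1 : ℝ) ≤ 2 ^ (c' * n) := one_le_pow₀ (by norm_num)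
    rw [hd, h2]
    calc ((2 : ℝ) ^ n) ^ 2 * ((6 + 42 * 2 ^ (c' * n)) * (1 / 2) ^ (2 * n + c' * n + 6 + d))
        ≤ ((2 : ℝ) ^ n) ^ 2 * ((64 * 2 ^ (c' * n)) * (1 / 2) ^ (2 * n + c' * n + 6 + d)) := by
          refine mul_le_mul_of_nonneg_left (mul_le_mul_of_nonneg_right ?_ (by positivity))
            (by positivity)
          linarith
      _ = ((2 : ℝ) * (1 / 2)) ^ (2 * n) * (2 * (1 / 2)) ^ (c' * n) * (1 / 2) ^ d := by
          rw [mul_pow, mul_pow, pow_mul' 2 2 n]
          ring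
      _ = (1 / 2) ^ d := by norm_num
      _ ≤ 1 := pow_le_one₀ (by norm_num) (by norm_num)
  have hb := few_correct (X := Fin (2 ^ n)) (K := KK (μ n)) (m := μ n) (by omega) acc
    (fun x ω P r => tb (pos μ n) pre O A M ℓ (pairBits (bitsOf n x.val) w) ω P (List.ofFn r))
    (s := s) (fun x ω P r => (tb_card (pos_inj μ n) pre O A M ω P rfl
      (List.length_ofFn)).trans (hs' x))
    (fun x ω ω' P r h hac => tb_stab (pos_inj μ n) pre O A M ℓ _ ω ω' P _ h hac)
    (KK_spec _) hsmall (ex_pos n w.length)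
  have e1 : 5 * ((Fintype.card (Fin (2 ^ n)) : ℝ) * Real.sqrt (Fintype.card (Fin (2 ^ n)))) /
      ex n w.length ^ 2 = 5 / ((n + 1) ^ 4 * 2 ^ w.length) := by
    rw [hcard]
    unfold ex
    rw [mul_pow, Real.sq_sqrt (by positivity)]
    have h2 : (0 : ℝ) < Real.sqrt (2 ^ n) := by positivity
    field_simp
  rw [e1] at hb
  refine le_trans (le_of_eq ?_) hb
  have hfair : (fair : ℝ) = 1 / 2 := rfl
  rw [hfair]
  refine congrArg (Ex (ber (1 / 2))) (funext fun ω => ?_)
  -- the two notions of correctness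
  have hpr : ∀ (x : Fin (2 ^ n)) (P : List (List Bool) → List Bool),
      (pr ℓ fun r => Accepts (outV M (O (ovw (pos μ n) ω A))) P ℓ
        (pairBits (bitsOf n x.val) w) r) =
      cnt (acc x ω P) / Fintype.card (Fin ℓ → Bool) := by
    intro x P
    classical
    rw [cnt_eq, Fintype.card_fun, Fintype.card_bool, Fintype.card_fin]
    unfold pr
    push_cast
    congr 2
    refine congrArg Finset.card (Finset.filter_congr fun v _ => ?_)
    refine accepts_congr P rfl (List.length_ofFn) fun y hy => ?_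
    exact h1 A (ovw (pos μ n) ω A) (hoff ω) y (hy.trans (il_le (hxlen x)))
  have hcor : ∀ x : Fin (2 ^ n), CorrectAt (outV M (O (ovw (pos μ n) ω A))) ℓ w
      (hardA μ (ovw (pos μ n) ω A)) (bitsOf n x.val) ↔ Cor acc ω x := by
    intro x
    unfold CorrectAt Cor
    simp only [hpr, hard_ovw]
  have h10 : (ovw (pos μ n) ω A ∈ Ev μ O M c n w) ↔
      (Fintype.card (Fin (2 ^ n)) : ℝ) / 2 + ex n w.length <
        (univ.filter fun x => Cor acc ω x).card := by
    unfold Ev good
    rw [Set.mem_ofPred_eq, ncard_len, hcard]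
    have e2 : (univ.filter fun x : Fin (2 ^ n) => CorrectAt (outV M (O (ovw (pos μ n) ω A)))
        (2 ^ (c * (n + 1))) w (hardA μ (ovw (pos μ n) ω A)) (bitsOf n x.val)) =
        univ.filter fun x => Cor acc ω x :=
      Finset.filter_congr fun x _ => hcor x
    rw [e2]
  exact if_congr h10 rfl rfl

end Pool.Agent.J6H31.AW
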